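import Pool.Agent.BEL.StmtsP

/-!
# Squad BEL (MP_be01ff_an): row COM (the commutator)
-/

set_option autoImplicit false

namespace Pool.Agent.BEL.H61

open Set Filter Topology MeasureTheory
open scoped InnerProductSpace ENNReal
open Pool.Agent.BE01

noncomputable section

theorem com (hP : PrdStmt) (hI : IbpStmt) : ComStmt := by
  intro d Ω ι b e om f hΩ hE hS hf hfc
  obtain ⟨q, M, hqc, hqM, hq⟩ := hI d Ω ι f hΩ hE hf hfc
  have hM0 : 0 ≤ M := le_trans (abs_nonneg _) (hqM 0)
  -- the gradient of `f`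
  have hgc : Continuous (gradient f) := by
    have h1 : Continuous (fun x => fderiv ℝ f x) := hf.continuous_fderiv (by simp)
    exact (InnerProductSpace.toDual ℝ (En d)).symm.continuous.comp h1
  have hgs : HasCompactSupport (gradient f) := by
    have h1 : HasCompactSupport (fderiv ℝ f) := hfc.fderiv ℝ
    apply h1.comp_left (g := fun L => (InnerProductSpace.toDual ℝ (En d)).symm L)
    exact map_zero _
  obtain ⟨N, hN⟩ := hgs.exists_bound_of_continuous hgc
  obtain ⟨F0, hF0⟩ := hfc.exists_bound_of_continuous hf.continuous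
  have hN0 : 0 ≤ N := le_trans (norm_nonneg _) (hN 0)
  -- the rescaled gradients
  let G : ℕ → VV Ω := fun k => om k • e k
  have hιG : ∀ k, ι (G k) = b k := by
    intro k
    apply b.repr.injective
    ext j
    rw [b.repr_apply_apply, b.repr_apply_apply, hS.rel j (G k)]
    change (om j)⁻¹ * ⟪e j, om k • e k⟫_ℝ = _
    have h0 : ⟪e j, om k • e k⟫_ℝ = om k * ⟪e j, e k⟫_ℝ := inner_smul_right (e j) (e k) (om k)
    rw [h0, orthonormal_iff_ite.1 e.orthonormal, orthonormal_iff_ite.1 b.orthonormal]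
    split_ifs with h
    · subst h
      rw [mul_one, inv_mul_cancel₀ (hS.pos j).ne']
    · rw [mul_zero, mul_zero]
  have hGP : ∀ (k : ℕ) (P : VV Ω), ⟪G k, P⟫_ℝ = om k ^ 2 * ⟪b k, ι P⟫_ℝ := by
    intro k P
    rw [hS.rel k P]
    change ⟪om k • e k, P⟫_ℝ = _
    have h0 : ⟪om k • e k, P⟫_ℝ = om k * ⟪e k, P⟫_ℝ := real_inner_smul_left (e k) P (om k)
    rw [h0]
    have := (hS.pos k).ne'
    field_simp
  have hGn : ∀ k, ‖G k‖ = om k := by
    intro k
    change ‖om k • e k‖ = om k
    rw [norm_smul, e.orthonormal.1 k, mul_one, Real.norm_eq_abs, abs_of_pos (hS.pos k)]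
  -- classes
  have hAm : ∀ k, MemLp (fun x => ⟪gradient f x, (G k : Lp (En d) 2 (mu Ω)) x⟫_ℝ) 2 (mu Ω) := by
    intro k
    refine MemLp.of_le_mul (c := N) (Lp.memLp (G k : Lp (En d) 2 (mu Ω))) ?_ ?_
    · exact hgc.aestronglyMeasurable.inner (Lp.aestronglyMeasurable _)
    · filter_upwards with x
      refine le_trans (norm_inner_le_norm _ _) ?_
      exact mul_le_mul_of_nonneg_right (hN x) (norm_nonneg _)
  have hBm : ∀ k, MemLp (fun x => q x * b k x) 2 (mu Ω) := by
    intro k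
    refine MemLp.of_le_mul (c := M) (Lp.memLp (b k)) ?_ ?_
    · exact hqc.aestronglyMeasurable.mul (Lp.aestronglyMeasurable _)
    · filter_upwards with x
      rw [norm_mul]
      exact mul_le_mul_of_nonneg_right (hqM x) (norm_nonneg _)
  have hFm : ∀ k, MemLp (fun x => f x • (G k : Lp (En d) 2 (mu Ω)) x) 2 (mu Ω) := by
    intro k
    refine MemLp.of_le_mul (c := F0) (Lp.memLp (G k : Lp (En d) 2 (mu Ω))) ?_ ?_
    · exact hf.continuous.aestronglyMeasurable.smul (Lp.aestronglyMeasurable _)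
    · filter_upwards with x
      rw [norm_smul]
      exact mul_le_mul_of_nonneg_right (hF0 x) (norm_nonneg _)
  have hDm : ∀ k, MemLp (fun x => b k x • gradient f x) 2 (mu Ω) := by
    intro k
    refine MemLp.of_le_mul (c := N) (Lp.memLp (b k)) ?_ ?_
    · have h := (Lp.aestronglyMeasurable (b k)).smul (hgc.aestronglyMeasurable (μ := mu Ω))
      exact h
    · filter_upwards with x
      rw [norm_smul, mul_comm]
      exact mul_le_mul_of_nonneg_right (hN x) (norm_nonneg _)
  let A : ℕ → Lp ℝ 2 (mu Ω) := fun k => (hAm k).toLp _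
  let B : ℕ → Lp ℝ 2 (mu Ω) := fun k => (hBm k).toLp _
  let F : ℕ → Lp (En d) 2 (mu Ω) := fun k => (hFm k).toLp _
  let D : ℕ → Lp (En d) 2 (mu Ω) := fun k => (hDm k).toLp _
  have hA : ∀ k, A k =ᵐ[mu Ω] fun x => ⟪gradient f x, (G k : Lp (En d) 2 (mu Ω)) x⟫_ℝ :=
    fun k => (hAm k).coeFn_toLp
  have hB : ∀ k, B k =ᵐ[mu Ω] fun x => q x * b k x := fun k => (hBm k).coeFn_toLp
  have hF : ∀ k, F k =ᵐ[mu Ω] fun x => f x • (G k : Lp (En d) 2 (mu Ω)) x :=
    fun k => (hFm k).coeFn_toLp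
  have hD : ∀ k, D k =ᵐ[mu Ω] fun x => b k x • gradient f x := fun k => (hDm k).coeFn_toLp
  have hAn : ∀ k, ‖A k‖ ≤ N * om k := by
    intro k
    have h1 : ‖A k‖ ≤ N * ‖(G k : Lp (En d) 2 (mu Ω))‖ := by
      apply Lp.norm_le_mul_norm_of_ae_le_mul
      filter_upwards [hA k] with x hx
      rw [hx]
      refine le_trans (norm_inner_le_norm _ _) ?_
      exact mul_le_mul_of_nonneg_right (hN x) (norm_nonneg _)
    have h2 : ‖(G k : Lp (En d) 2 (mu Ω))‖ = om k := hGn k
    rwa [h2] at h1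
  have hBn : ∀ k, ‖B k‖ ≤ M := by
    intro k
    have h1 : ‖B k‖ ≤ M * ‖b k‖ := by
      apply Lp.norm_le_mul_norm_of_ae_le_mul
      filter_upwards [hB k] with x hx
      rw [hx, norm_mul]
      exact mul_le_mul_of_nonneg_right (hqM x) (norm_nonneg _)
    rwa [b.orthonormal.1 k, mul_one] at h1
  -- the products
  choose P hP1 hP2 using fun k => hP d Ω ι f hΩ hE hf hfc (G k)
  have hPFD : ∀ k, (P k : Lp (En d) 2 (mu Ω)) = F k + D k := by
    intro k
    apply Lp.ext
    filter_upwards [hP2 k, hF k, hD k, Lp.coeFn_add (F k) (D k)] with x h1 h2 h3 h4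
    rw [h1, h4, Pi.add_apply, h2, h3, hιG k]
  have hDG : ∀ k l, ⟪D k, (G l : Lp (En d) 2 (mu Ω))⟫_ℝ = ⟪b k, A l⟫_ℝ := by
    intro k l
    rw [L2.inner_def, L2.inner_def]
    apply integral_congr_ae
    filter_upwards [hD k, hA l] with x h1 h2
    rw [h1, h2, real_inner_smul_left]
    simp only [RCLike.inner_apply, conj_trivial]
    ring
  have hFG : ∀ k l, ⟪F k, (G l : Lp (En d) 2 (mu Ω))⟫_ℝ =
      ⟪(G k : Lp (En d) 2 (mu Ω)), F l⟫_ℝ := by
    intro k l
    rw [L2.inner_def, L2.inner_def]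
    apply integral_congr_ae
    filter_upwards [hF k, hF l] with x h1 h2
    rw [h1, h2, real_inner_smul_left, real_inner_smul_right]
  have hint : ∀ k l, ⟪b l, ι (P k)⟫_ℝ = ∫ x, f x * b k x * b l x ∂(mu Ω) := by
    intro k l
    rw [L2.inner_def]
    apply integral_congr_ae
    filter_upwards [hP1 k] with x h1
    rw [h1, hιG k]
    simp only [RCLike.inner_apply, conj_trivial]
  have e1 : ∀ k l, om l ^ 2 * ∫ x, f x * b k x * b l x ∂(mu Ω) =
      ⟪F k, (G l : Lp (En d) 2 (mu Ω))⟫_ℝ + ⟪b k, A l⟫_ℝ := by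
    intro k l
    rw [← hint k l, ← hGP l (P k), real_inner_comm]
    change ⟪(P k : Lp (En d) 2 (mu Ω)), (G l : Lp (En d) 2 (mu Ω))⟫_ℝ = _
    rw [hPFD k, inner_add_left, hDG]
  have hsymm : ∀ k l, ∫ x, f x * b k x * b l x ∂(mu Ω) = ∫ x, f x * b l x * b k x ∂(mu Ω) := by
    intro k l
    apply integral_congr_ae
    filter_upwards with x
    ring
  have e2 : ∀ k l, om k ^ 2 * ∫ x, f x * b k x * b l x ∂(mu Ω) =
      ⟪(G k : Lp (En d) 2 (mu Ω)), F l⟫_ℝ + ⟪b l, A k⟫_ℝ := by
    intro k l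
    rw [hsymm, e1 l k, real_inner_comm]
  have e3 : ∀ k l, ⟪b k, A l⟫_ℝ + ⟪b l, A k⟫_ℝ + ⟪b l, B k⟫_ℝ = 0 := by
    intro k l
    have h1 := hq (G k) (G l)
    rw [hιG k, hιG l] at h1
    have i1 : Integrable (fun x => b k x * ⟪gradient f x, (G l : Lp (En d) 2 (mu Ω)) x⟫_ℝ)
        (mu Ω) := by
      have h2 := L2.integrable_inner (𝕜 := ℝ) (b k) (A l)
      refine h2.congr ?_
      filter_upwards [hA l] with x hx
      rw [hx]
      simp only [RCLike.inner_apply, conj_trivial]
      ring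
    have i2 : Integrable (fun x => b l x * ⟪gradient f x, (G k : Lp (En d) 2 (mu Ω)) x⟫_ℝ)
        (mu Ω) := by
      have h2 := L2.integrable_inner (𝕜 := ℝ) (b l) (A k)
      refine h2.congr ?_
      filter_upwards [hA k] with x hx
      rw [hx]
      simp only [RCLike.inner_apply, conj_trivial]
      ring
    have i3 : Integrable (fun x => b k x * b l x * q x) (mu Ω) := by
      have h2 := L2.integrable_inner (𝕜 := ℝ) (b l) (B k)
      refine h2.congr ?_
      filter_upwards [hB k] with x hx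
      rw [hx]
      simp only [RCLike.inner_apply, conj_trivial]
      ring
    have i12 : Integrable (fun x => b k x * ⟪gradient f x, (G l : Lp (En d) 2 (mu Ω)) x⟫_ℝ +
        b l x * ⟪gradient f x, (G k : Lp (En d) 2 (mu Ω)) x⟫_ℝ) (mu Ω) := i1.add i2
    rw [integral_add i12 i3, integral_add i1 i2] at h1
    rw [← h1, L2.inner_def, L2.inner_def, L2.inner_def]
    congr 1
    · congr 1
      · apply integral_congr_ae
        filter_upwards [hA l] with x hx
        rw [hx]
        simp only [RCLike.inner_apply, conj_trivial]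
        ring
      · apply integral_congr_ae
        filter_upwards [hA k] with x hx
        rw [hx]
        simp only [RCLike.inner_apply, conj_trivial]
        ring
    · apply integral_congr_ae
      filter_upwards [hB k] with x hx
      rw [hx]
      simp only [RCLike.inner_apply, conj_trivial]
      ring
  refine ⟨2 * N + M, by positivity, fun k => ⟨(-2 : ℝ) • A k - B k, ?_, fun l => ?_⟩⟩
  · have h1 : ‖(-2 : ℝ) • A k - B k‖ ≤ ‖(-2 : ℝ) • A k‖ + ‖B k‖ := norm_sub_le _ _
    have h2 : ‖(-2 : ℝ) • A k‖ = 2 * ‖A k‖ := by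
      rw [norm_smul]
      norm_num
    have h3 := hAn k
    have h4 := hBn k
    have h5 := (hS.pos k).le
    rw [h2] at h1
    have h6 : 0 ≤ M * om k := mul_nonneg hM0 h5
    nlinarith
  · rw [inner_sub_left, real_inner_smul_left, sub_mul, e1 k l, e2 k l, hFG k l,
      real_inner_comm (b l) (A k), real_inner_comm (b l) (B k)]
    have h1 := e3 k l
    linarith

end

end Pool.Agent.BEL.H61
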