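import Pool.Agent.BEL.StmtsP
import Pool.Agent.Helper94_BE01.Dns

/-!
# Squad BEL (MP_be01ff_an): row ITR
-/

set_option autoImplicit false

namespace Pool.Agent.BEL.H61

open Set Filter Topology MeasureTheory
open scoped InnerProductSpace ENNReal
open Pool.Agent.BE01

noncomputable section

section hil

variable {H : Type} [NormedAddCommGroup H] [InnerProductSpace ℝ H] (b : HilbertBasis ℕ ℝ H)

/-- squared distance to the span of the first `s` vectors -/
def DD (s : ℕ) (z : H) : ℝ := ‖z‖ ^ 2 - ∑ l ∈ Finset.range s, ⟪z, b l⟫_ℝ ^ 2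

theorem DD_nn (s : ℕ) (z : H) : 0 ≤ DD b s z := by
  unfold DD
  have h := b.orthonormal.sum_inner_products_le (s := Finset.range s) z
  have h2 : ∑ l ∈ Finset.range s, ⟪z, b l⟫_ℝ ^ 2 =
      ∑ l ∈ Finset.range s, ‖⟪b l, z⟫_ℝ‖ ^ 2 := by
    apply Finset.sum_congr rfl
    intro l _
    rw [Real.norm_eq_abs, sq_abs, real_inner_comm]
  rw [h2]
  linarith

theorem DD_le (s : ℕ) (z : H) : DD b s z ≤ ‖z‖ ^ 2 := by
  unfold DD
  have h : 0 ≤ ∑ l ∈ Finset.range s, ⟪z, b l⟫_ℝ ^ 2 := Finset.sum_nonneg fun _ _ => sq_nonneg _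
  linarith

theorem DD_add (s : ℕ) (z w : H) : DD b s (z + w) ≤ 2 * DD b s z + 2 * DD b s w := by
  have h1 : DD b s (z + w) + DD b s (z - w) = 2 * DD b s z + 2 * DD b s w := by
    unfold DD
    rw [norm_add_sq_real, norm_sub_sq_real]
    have h2 : ∑ l ∈ Finset.range s, ⟪z + w, b l⟫_ℝ ^ 2 + ∑ l ∈ Finset.range s, ⟪z - w, b l⟫_ℝ ^ 2 =
        2 * ∑ l ∈ Finset.range s, ⟪z, b l⟫_ℝ ^ 2 + 2 * ∑ l ∈ Finset.range s, ⟪w, b l⟫_ℝ ^ 2 := by
      rw [Finset.mul_sum, Finset.mul_sum, ← Finset.sum_add_distrib, ← Finset.sum_add_distrib]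
      apply Finset.sum_congr rfl
      intro l _
      rw [inner_add_left, inner_sub_left]
      ring
    linarith
  have h3 := DD_nn b s (z - w)
  linarith

theorem DD_split {s t : ℕ} (h : s ≤ t) (z : H) :
    DD b s z = DD b t z + ∑ l ∈ Finset.Ico s t, ⟪z, b l⟫_ℝ ^ 2 := by
  unfold DD
  rw [← Finset.sum_range_add_sum_Ico _ h]
  ring

theorem DD_hasSum (t : ℕ) (z : H) : HasSum (fun l => ⟪z, b (l + t)⟫_ℝ ^ 2) (DD b t z) := by
  have h1 : HasSum (fun l => ⟪z, b l⟫_ℝ ^ 2) (‖z‖ ^ 2) := by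
    have h2 := b.hasSum_inner_mul_inner z z
    rw [real_inner_self_eq_norm_sq] at h2
    refine h2.congr_fun ?_ |> fun h => h
    intro l
    rw [sq, real_inner_comm z (b l)]
  exact (hasSum_nat_add_iff' t).2 h1

theorem DD_cmp (t : ℕ) (z h : H) (lam : ℝ) (hl : 0 < lam)
    (hh : ∀ l, t ≤ l → lam ^ 2 * ⟪z, b l⟫_ℝ ^ 2 ≤ ⟪h, b l⟫_ℝ ^ 2) :
    DD b t z ≤ ‖h‖ ^ 2 / lam ^ 2 := by
  rw [le_div_iff₀ (by positivity)]
  have h1 := (DD_hasSum b t z).mul_left (lam ^ 2)
  have h2 := DD_hasSum b t h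
  have h3 := hasSum_le (fun l => hh (l + t) (by omega)) h1 h2
  have h4 := DD_le b t h
  linarith

end hil

section fun'

variable {X : Type} [MeasurableSpace X] {μ : Measure X}

theorem prod_memLp {f : X → ℝ} {M : ℝ} (hf : AEStronglyMeasurable f μ) (hM : ∀ x, |f x| ≤ M)
    (v : Lp ℝ 2 μ) : MemLp (fun x => f x * v x) 2 μ := by
  refine MemLp.of_le_mul (c := M) (Lp.memLp v) (hf.mul (Lp.aestronglyMeasurable _)) ?_
  filter_upwards with x
  rw [norm_mul]
  exact mul_le_mul_of_nonneg_right (hM x) (norm_nonneg _)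

theorem prod_ex {f : X → ℝ} {M : ℝ} (hf : AEStronglyMeasurable f μ) (hM : ∀ x, |f x| ≤ M)
    (v : Lp ℝ 2 μ) : ∃ F : Lp ℝ 2 μ, F =ᵐ[μ] (fun x => f x * v x) ∧ ‖F‖ ≤ M * ‖v‖ := by
  refine ⟨(prod_memLp hf hM v).toLp _, (prod_memLp hf hM v).coeFn_toLp, ?_⟩
  apply Lp.norm_le_mul_norm_of_ae_le_mul
  filter_upwards [(prod_memLp hf hM v).coeFn_toLp] with x hx
  rw [hx, norm_mul]
  exact mul_le_mul_of_nonneg_right (hM x) (norm_nonneg _)

theorem inner_F {f : X → ℝ} {v w F : Lp ℝ 2 μ} (hF : F =ᵐ[μ] fun x => f x * v x) :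
    ⟪F, w⟫_ℝ = ∫ x, f x * v x * w x ∂μ := by
  rw [L2.inner_def]
  apply integral_congr_ae
  filter_upwards [hF] with x hx
  rw [hx]
  simp only [RCLike.inner_apply, conj_trivial]
  ring

theorem norm_F {f : X → ℝ} {F : Lp ℝ 2 μ} (hF : F =ᵐ[μ] f) :
    ‖F‖ ^ 2 = ∫ x, (f x) ^ 2 ∂μ := by
  rw [← real_inner_self_eq_norm_sq, L2.inner_def]
  apply integral_congr_ae
  filter_upwards [hF] with x hx
  rw [hx]
  simp only [RCLike.inner_apply, conj_trivial]
  ring

/-- the local Weyl bound -/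
theorem weyl {b : ℕ → Lp ℝ 2 μ} {C : ℝ} {s : ℕ} (hC : ∀ᵐ x ∂μ, ∑ k ∈ Finset.range s, (b k x) ^ 2 ≤ C)
    {h : X → ℝ} {Hh : Lp ℝ 2 μ} (hh : Hh =ᵐ[μ] h) {F : ℕ → Lp ℝ 2 μ}
    (hF : ∀ k, F k =ᵐ[μ] fun x => h x * b k x) :
    ∑ k ∈ Finset.range s, ‖F k‖ ^ 2 ≤ C * ‖Hh‖ ^ 2 := by
  have h1 : ∀ k, ‖F k‖ ^ 2 = ∫ x, (F k x) ^ 2 ∂μ := fun k => norm_F (EventuallyEq.refl _ _)
  have h2 : ‖Hh‖ ^ 2 = ∫ x, (Hh x) ^ 2 ∂μ := norm_F (EventuallyEq.refl _ _)
  have h3 : ∀ k, Integrable (fun x => (F k x) ^ 2) μ := fun k => (Lp.memLp (F k)).integrable_sq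
  have h4 : Integrable (fun x => (Hh x) ^ 2) μ := (Lp.memLp Hh).integrable_sq
  simp only [h1]
  rw [h2, ← integral_finset_sum _ (fun k _ => h3 k), ← integral_const_mul]
  apply integral_mono_ae
  · exact integrable_finset_sum _ (fun k _ => h3 k)
  · exact h4.const_mul C
  · have h5 : ∀ᵐ x ∂μ, ∀ k, F k x = h x * b k x := ae_all_iff.2 hF
    filter_upwards [hC, h5, hh] with x hx1 hx2 hx3
    simp only [hx2, hx3]
    have h6 : ∑ k ∈ Finset.range s, (h x * b k x) ^ 2 =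
        (∑ k ∈ Finset.range s, (b k x) ^ 2) * h x ^ 2 := by
      rw [Finset.sum_mul]
      apply Finset.sum_congr rfl
      intro k _
      ring
    rw [h6]
    exact mul_le_mul_of_nonneg_right hx1 (sq_nonneg _)

end fun'

/-- Row ITR. -/
theorem itr (hG : GrwStmt) (hSh : ShlStmt) (hCm : ComStmt) : ItrStmt := by
  intro d Ω ι b e om hd hΩ hE hS
  obtain ⟨⟨C, hC⟩, c, C', hc, hC', hg⟩ := hG d Ω ι b e om hd hΩ hE hS
  have hd' : (0 : ℝ) < d := by exact_mod_cast hd
  obtain ⟨s, t, w, hs, hs0, hst, hw, hwt, hq⟩ :=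
    hSh om c C' (1 / (d : ℝ)) hS.mono hc hC' (by positivity) hg
  refine ⟨s, hs, ?_⟩
  intro f hf hfM
  obtain ⟨M, hM⟩ := hfM
  haveI : IsFiniteMeasure (mu Ω) :=
    ⟨by
      unfold mu
      rw [Measure.restrict_apply_univ]
      exact hΩ.2.1.measure_lt_top⟩
  choose F hF hFn using fun k => prod_ex (μ := mu Ω) hf.aestronglyMeasurable hM (b k)
  have hfL : MemLp f 2 (mu Ω) := by
    apply MemLp.of_bound hf.aestronglyMeasurable M
    filter_upwards with x
    exact hM x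
  set Fc : Lp ℝ 2 (mu Ω) := hfL.toLp f with hFc
  have hFc' : Fc =ᵐ[mu Ω] f := hfL.coeFn_toLp
  -- the quantity
  have hEq : ∀ i, (1 / (s i : ℝ)) * ∑ k ∈ Finset.range (s i),
      (∫ x, (f x * b k x) ^ 2 ∂(mu Ω) -
        ∑ l ∈ Finset.range (s i), (∫ x, f x * b k x * b l x ∂(mu Ω)) ^ 2) =
      (1 / (s i : ℝ)) * ∑ k ∈ Finset.range (s i), DD b (s i) (F k) := by
    intro i
    congr 1
    apply Finset.sum_congr rfl
    intro k _
    unfold DD
    rw [norm_F (hF k)]
    congr 1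
    apply Finset.sum_congr rfl
    intro l _
    rw [inner_F (hF k)]
  simp only [hEq]
  -- smooth functions
  have hsm : ∀ g : En d → ℝ, Tst Ω g → ∀ Gg : ℕ → Lp ℝ 2 (mu Ω),
      (∀ k, Gg k =ᵐ[mu Ω] fun x => g x * b k x) →
      Tendsto (fun i => (1 / (s i : ℝ)) * ∑ k ∈ Finset.range (s i), DD b (s i) (Gg k))
        atTop (𝓝 0) := by
    intro g hgT Gg hGg
    obtain ⟨N, hN⟩ := hgT.2.1.exists_bound_of_continuous hgT.1.continuous
    obtain ⟨K, hK0, hK⟩ := hCm d Ω ι b e om g hΩ hE hS hgT.1 hgT.2.1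
    choose h hh1 hh2 using hK
    have hN' : ∀ l, ‖Gg l‖ ^ 2 ≤ N ^ 2 := by
      intro l
      have h1 : ‖Gg l‖ ≤ N * ‖b l‖ := by
        apply Lp.norm_le_mul_norm_of_ae_le_mul
        filter_upwards [hGg l] with x hx
        rw [hx, norm_mul]
        exact mul_le_mul_of_nonneg_right (hN x) (norm_nonneg _)
      rw [b.orthonormal.1 l, mul_one] at h1
      exact pow_le_pow_left₀ (norm_nonneg _) h1 2
    have hsym : ∀ k l, ⟪Gg k, b l⟫_ℝ = ⟪Gg l, b k⟫_ℝ := by
      intro k l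
      rw [inner_F (hGg k), inner_F (hGg l)]
      apply integral_congr_ae
      filter_upwards with x
      ring
    have hκ : 0 < 1 + 1 / om 0 := by
      have := hS.pos 0
      positivity
    set κ : ℝ := 1 + 1 / om 0 with hκd
    have key : ∀ i, 0 < w i → (1 / (s i : ℝ)) * ∑ k ∈ Finset.range (s i), DD b (s i) (Gg k) ≤
        (K * κ / w i) ^ 2 + N ^ 2 * (((t i : ℝ) - s i) / s i) := by
      intro i hwi
      have hsi : (0 : ℝ) < s i := by exact_mod_cast hs0 i
      have h1 : ∑ k ∈ Finset.range (s i), DD b (s i) (Gg k) =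
          ∑ k ∈ Finset.range (s i), DD b (t i) (Gg k) +
            ∑ l ∈ Finset.Ico (s i) (t i), ∑ k ∈ Finset.range (s i), ⟪Gg l, b k⟫_ℝ ^ 2 := by
        rw [Finset.sum_comm, ← Finset.sum_add_distrib]
        apply Finset.sum_congr rfl
        intro k _
        rw [DD_split b (hst i)]
        congr 1
        apply Finset.sum_congr rfl
        intro l _
        rw [hsym k l]
      have h2 : ∑ l ∈ Finset.Ico (s i) (t i), ∑ k ∈ Finset.range (s i), ⟪Gg l, b k⟫_ℝ ^ 2 ≤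
          N ^ 2 * ((t i : ℝ) - s i) := by
        calc ∑ l ∈ Finset.Ico (s i) (t i), ∑ k ∈ Finset.range (s i), ⟪Gg l, b k⟫_ℝ ^ 2
            ≤ ∑ l ∈ Finset.Ico (s i) (t i), N ^ 2 := by
              apply Finset.sum_le_sum
              intro l _
              have h3 := DD_nn b (s i) (Gg l)
              have h4 := hN' l
              unfold DD at h3
              linarith
          _ = N ^ 2 * ((t i : ℝ) - s i) := by
              rw [Finset.sum_const, Nat.card_Ico, nsmul_eq_mul, Nat.cast_sub (hst i)]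
              ring
      have h3 : ∀ k ∈ Finset.range (s i), DD b (t i) (Gg k) ≤ (K * κ / w i) ^ 2 := by
        intro k hk
        have hk' : k ≤ s i - 1 := by
          have := Finset.mem_range.1 hk
          omega
        have hok : om k ≤ om (s i - 1) := hS.mono hk'
        have hkt : om k + w i ≤ om (t i) := le_trans (by linarith) (hw i)
        have hopk := hS.pos k
        have hopt := hS.pos (t i)
        have hlam : 0 < w i * om (t i) := mul_pos hwi hopt
        have h4 := DD_cmp b (t i) (Gg k) (h k) (w i * om (t i)) hlam (by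
          intro l hl
          rw [hh2 k l]
          have h5 : ∫ x, g x * b k x * b l x ∂(mu Ω) = ⟪Gg k, b l⟫_ℝ := (inner_F (hGg k)).symm
          rw [h5, mul_pow (om l ^ 2 - om k ^ 2)]
          apply mul_le_mul_of_nonneg_right _ (sq_nonneg _)
          apply pow_le_pow_left₀ hlam.le
          have h6 : om (t i) ≤ om l := hS.mono hl
          have h7 : om (t i) ^ 2 ≤ om l ^ 2 := pow_le_pow_left₀ hopt.le h6 2
          have h8 : w i * om (t i) ≤ om (t i) ^ 2 - om k ^ 2 := by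
            have h9 : om (t i) ^ 2 - om k ^ 2 = (om (t i) - om k) * (om (t i) + om k) := by ring
            rw [h9]
            apply mul_le_mul (by linarith) (by linarith) hopt.le (by linarith)
          linarith)
        refine le_trans h4 ?_
        have h9 : ‖h k‖ ≤ K * (κ * om (t i)) := by
          refine le_trans (hh1 k) ?_
          apply mul_le_mul_of_nonneg_left _ hK0
          rw [hκd]
          have h10 : om 0 ≤ om (t i) := hS.mono (Nat.zero_le _)
          have h11 : 1 ≤ 1 / om 0 * om (t i) := by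
            rw [one_div_mul_eq_div, le_div_iff₀ (hS.pos 0)]
            linarith
          nlinarith
        have h12 : ‖h k‖ ^ 2 / (w i * om (t i)) ^ 2 = (‖h k‖ / (w i * om (t i))) ^ 2 := by
          rw [div_pow]
        rw [h12]
        apply pow_le_pow_left₀ (by positivity)
        rw [div_le_div_iff₀ hlam hwi]
        calc ‖h k‖ * w i ≤ (K * (κ * om (t i))) * w i := mul_le_mul_of_nonneg_right h9 hwi.le
          _ = K * κ * (w i * om (t i)) := by ring
      have h4 : ∑ k ∈ Finset.range (s i), DD b (t i) (Gg k) ≤ s i * (K * κ / w i) ^ 2 := by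
        refine le_trans (Finset.sum_le_sum h3) ?_
        rw [Finset.sum_const, Finset.card_range, nsmul_eq_mul]
      have h5 : (1 / (s i : ℝ)) * ∑ k ∈ Finset.range (s i), DD b (s i) (Gg k) ≤
          (1 / (s i : ℝ)) * (s i * (K * κ / w i) ^ 2 + N ^ 2 * ((t i : ℝ) - s i)) := by
        apply mul_le_mul_of_nonneg_left _ (by positivity)
        rw [h1]
        linarith
      refine le_trans h5 (le_of_eq ?_)
      field_simp
    have hlim : Tendsto (fun i => (K * κ / w i) ^ 2 + N ^ 2 * (((t i : ℝ) - s i) / s i))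
        atTop (𝓝 0) := by
      have h1 : Tendsto (fun i => K * κ / w i) atTop (𝓝 0) := hwt.const_div_atTop (K * κ)
      have h2 := (h1.pow 2).add (hq.const_mul (N ^ 2))
      have h3 : (0 : ℝ) ^ 2 + N ^ 2 * 0 = 0 := by ring
      rw [h3] at h2
      exact h2
    refine tendsto_of_tendsto_of_tendsto_of_le_of_le' tendsto_const_nhds hlim ?_ ?_
    · filter_upwards with i
      have : (0 : ℝ) ≤ 1 / (s i : ℝ) := by positivity
      exact mul_nonneg this (Finset.sum_nonneg fun k _ => DD_nn b _ _)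
    · filter_upwards [hwt.eventually_gt_atTop 0] with i hi
      exact key i hi
  -- conclusion
  rw [Metric.tendsto_atTop']
  intro ε hε
  set C1 : ℝ := |C| + 1 with hC1
  have hC10 : 0 < C1 := by positivity
  have hdens := Pool.Agent.BE01.H94.dns d Ω hΩ
  have hmem : Fc ∈ closure {f : Lp ℝ 2 (mu Ω) | ∃ ψ, Tst Ω ψ ∧ f =ᵐ[mu Ω] ψ} := by
    rw [hdens]
    trivial
  set δ : ℝ := Real.sqrt (ε / (4 * C1)) with hδ
  have hδ0 : 0 < δ := by positivity
  have hδ2 : δ ^ 2 = ε / (4 * C1) := Real.sq_sqrt (by positivity)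
  obtain ⟨Gc, ⟨g, hgT, hGc⟩, hdist⟩ := Metric.mem_closure_iff.1 hmem δ hδ0
  obtain ⟨N, hN⟩ := hgT.2.1.exists_bound_of_continuous hgT.1.continuous
  choose Gg hGg _ using fun k =>
    prod_ex (μ := mu Ω) hgT.1.continuous.aestronglyMeasurable hN (b k)
  have h1 := hsm g hgT Gg hGg
  rw [Metric.tendsto_atTop'] at h1
  obtain ⟨i0, hi0⟩ := h1 (ε / 4) (by positivity)
  refine ⟨i0, ?_⟩
  intro i hi
  have h2 := hi0 i hi
  rw [Real.dist_eq, sub_zero] at h2 ⊢
  have hsi : (0 : ℝ) < s i := by exact_mod_cast hs0 i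
  have hnn : ∀ Z : ℕ → Lp ℝ 2 (mu Ω),
      0 ≤ (1 / (s i : ℝ)) * ∑ k ∈ Finset.range (s i), DD b (s i) (Z k) := fun Z =>
    mul_nonneg (by positivity) (Finset.sum_nonneg fun k _ => DD_nn b _ _)
  rw [abs_of_nonneg (hnn _)] at h2 ⊢
  have h3 : ∀ k, DD b (s i) (F k) ≤ 2 * DD b (s i) (Gg k) + 2 * ‖F k - Gg k‖ ^ 2 := by
    intro k
    have h4 := DD_add b (s i) (Gg k) (F k - Gg k)
    rw [add_sub_cancel] at h4
    have h5 := DD_le b (s i) (F k - Gg k)
    linarith
  have h6 : ∑ k ∈ Finset.range (s i), ‖F k - Gg k‖ ^ 2 ≤ (C1 * s i) * ‖Fc - Gc‖ ^ 2 := by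
    refine weyl (b := fun k => b k) (h := fun x => f x - g x) ?_ ?_ ?_
    · filter_upwards [hC (s i)] with x hx
      refine le_trans hx ?_
      apply mul_le_mul_of_nonneg_right _ hsi.le
      have := le_abs_self C
      linarith
    · filter_upwards [Lp.coeFn_sub Fc Gc, hFc', hGc] with x hx1 hx2 hx3
      rw [hx1, Pi.sub_apply, hx2, hx3]
    · intro k
      filter_upwards [Lp.coeFn_sub (F k) (Gg k), hF k, hGg k] with x hx1 hx2 hx3
      rw [hx1, Pi.sub_apply, hx2, hx3]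
      ring
  have h7 : ‖Fc - Gc‖ ^ 2 ≤ δ ^ 2 := by
    apply pow_le_pow_left₀ (norm_nonneg _)
    rw [← dist_eq_norm]
    exact hdist.le
  have h8 : (1 / (s i : ℝ)) * ∑ k ∈ Finset.range (s i), DD b (s i) (F k) ≤
      2 * ((1 / (s i : ℝ)) * ∑ k ∈ Finset.range (s i), DD b (s i) (Gg k)) +
        2 * (C1 * δ ^ 2) := by
    have h9 : ∑ k ∈ Finset.range (s i), DD b (s i) (F k) ≤
        2 * ∑ k ∈ Finset.range (s i), DD b (s i) (Gg k) +
          2 * ∑ k ∈ Finset.range (s i), ‖F k - Gg k‖ ^ 2 := by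
      rw [Finset.mul_sum, Finset.mul_sum, ← Finset.sum_add_distrib]
      exact Finset.sum_le_sum fun k _ => h3 k
    have h10 : ∑ k ∈ Finset.range (s i), ‖F k - Gg k‖ ^ 2 ≤ (C1 * s i) * δ ^ 2 :=
      le_trans h6 (mul_le_mul_of_nonneg_left h7 (by positivity))
    calc (1 / (s i : ℝ)) * ∑ k ∈ Finset.range (s i), DD b (s i) (F k) ≤
        (1 / (s i : ℝ)) * (2 * ∑ k ∈ Finset.range (s i), DD b (s i) (Gg k) +
          2 * ((C1 * s i) * δ ^ 2)) := by
          apply mul_le_mul_of_nonneg_left _ (by positivity)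
          linarith
      _ = _ := by
          field_simp
  have h11 : 2 * (C1 * δ ^ 2) = ε / 2 := by
    rw [hδ2]
    field_simp
    ring
  linarith

end

end Pool.Agent.BEL.H61
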