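import Mathlib

/-!
# Squad BEL (MP_be01ff_an): Ekeland's variational principle (maximum form)
-/

set_option autoImplicit false

open Filter Topology

namespace Pool.Agent.BEL.H61

/-- the set of the points which are better than `x`, with a price -/
def SS {X : Type} [MetricSpace X] (J : X → ℝ) (e : ℝ) (x : X) : Set X :=
  {y | J x + e * dist x y ≤ J y}

theorem SS_self {X : Type} [MetricSpace X] (J : X → ℝ) (e : ℝ) (x : X) : x ∈ SS J e x := by
  change J x + e * dist x x ≤ J x
  rw [dist_self, mul_zero, add_zero]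

theorem SS_trans {X : Type} [MetricSpace X] {J : X → ℝ} {e : ℝ} (he : 0 < e) {x y z : X}
    (hy : y ∈ SS J e x) (hz : z ∈ SS J e y) : z ∈ SS J e x := by
  change J x + e * dist x y ≤ J y at hy
  change J y + e * dist y z ≤ J z at hz
  change J x + e * dist x z ≤ J z
  have h1 := mul_le_mul_of_nonneg_left (dist_triangle x y z) he.le
  linarith

theorem SS_closed {X : Type} [MetricSpace X] {J : X → ℝ} (hJ : Continuous J) (e : ℝ) (x : X) :
    IsClosed (SS J e x) := by
  apply isClosed_le
  · exact continuous_const.add (continuous_const.mul (continuous_const.dist continuous_id))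
  · exact hJ

/-- Ekeland's variational principle for a continuous function which is bounded above. -/
theorem ekeland {X : Type} [MetricSpace X] [CompleteSpace X] (J : X → ℝ) (hJ : Continuous J)
    (C : ℝ) (hC : ∀ x, J x ≤ C) (e : ℝ) (he : 0 < e) (x0 : X) :
    ∃ x, J x0 + e * dist x0 x ≤ J x ∧ ∀ y, J y ≤ J x + e * dist x y := by
  have hbd : ∀ x, BddAbove (J '' SS J e x) := by
    intro x
    refine ⟨C, ?_⟩
    rintro _ ⟨y, _, rfl⟩
    exact hC y
  have hex : ∀ (n : ℕ) (x : X), ∃ y ∈ SS J e x, ∀ z ∈ SS J e x, J z ≤ J y + (1 / 2) ^ n := by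
    intro n x
    have h1 : sSup (J '' SS J e x) - (1 / 2 : ℝ) ^ n < sSup (J '' SS J e x) := by
      have : (0 : ℝ) < (1 / 2) ^ n := by positivity
      linarith
    have hne : (J '' SS J e x).Nonempty := ⟨J x, x, SS_self J e x, rfl⟩
    obtain ⟨_, ⟨y, hy, rfl⟩, h2⟩ := exists_lt_of_lt_csSup hne h1
    refine ⟨y, hy, fun z hz => ?_⟩
    have h3 := le_csSup (hbd x) ⟨z, hz, rfl⟩
    linarith
  choose f hf1 hf2 using hex
  let s : ℕ → X := fun n => Nat.rec x0 (fun m y => f m y) n
  have hs : ∀ n, s (n + 1) = f n (s n) := fun n => rfl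
  have hstep : ∀ n, s (n + 1) ∈ SS J e (s n) := fun n => by
    rw [hs]
    exact hf1 n (s n)
  have hmem : ∀ n m, s (n + m) ∈ SS J e (s n) := by
    intro n m
    induction m with
    | zero => exact SS_self J e _
    | succ m ih => exact SS_trans he ih (hstep (n + m))
  have hdist : ∀ n, ∀ z ∈ SS J e (s (n + 1)), dist (s (n + 1)) z ≤ (1 / 2) ^ n / e := by
    intro n z hz
    have h1 : z ∈ SS J e (s n) := SS_trans he (hstep n) hz
    have h2 := hf2 n (s n) z h1
    rw [← hs] at h2
    have h3 : J (s (n + 1)) + e * dist (s (n + 1)) z ≤ J z := hz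
    rw [le_div_iff₀ he]
    linarith
  have hcauchy : CauchySeq s := by
    rw [Metric.cauchySeq_iff']
    intro δ hδ
    obtain ⟨n, hn⟩ := exists_pow_lt_of_lt_one (show 0 < δ * e by positivity)
      (show (1 / 2 : ℝ) < 1 by norm_num)
    refine ⟨n + 1, fun m hm => ?_⟩
    obtain ⟨k, rfl⟩ := Nat.exists_eq_add_of_le hm
    have h1 := hdist n _ (hmem (n + 1) k)
    rw [dist_comm]
    refine lt_of_le_of_lt h1 ?_
    rw [div_lt_iff₀ he]
    exact hn
  obtain ⟨x, hx⟩ := cauchySeq_tendsto_of_complete hcauchy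
  have hxS : ∀ n, x ∈ SS J e (s n) := by
    intro n
    refine (SS_closed hJ e (s n)).mem_of_tendsto hx ?_
    filter_upwards [eventually_ge_atTop n] with m hm
    obtain ⟨k, rfl⟩ := Nat.exists_eq_add_of_le hm
    exact hmem n k
  refine ⟨x, hxS 0, fun y => ?_⟩
  by_contra hy
  have hyS : y ∈ SS J e x := (not_le.1 hy).le
  have h1 : ∀ n, dist (s (n + 1)) y ≤ (1 / 2) ^ n / e := fun n =>
    hdist n y (SS_trans he (hxS (n + 1)) hyS)
  have h2 : Tendsto (fun n : ℕ => (1 / 2 : ℝ) ^ n / e) atTop (𝓝 0) := by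
    have := (tendsto_pow_atTop_nhds_zero_of_lt_one (show (0 : ℝ) ≤ 1 / 2 by norm_num)
      (show (1 / 2 : ℝ) < 1 by norm_num)).div_const e
    rwa [zero_div] at this
  have h3 : Tendsto (fun n : ℕ => dist (s (n + 1)) y) atTop (𝓝 (dist x y)) :=
    ((tendsto_add_atTop_iff_nat 1).2 hx).dist tendsto_const_nhds
  have h4 : dist x y ≤ 0 := le_of_tendsto_of_tendsto' h3 h2 h1
  have h5 : x = y := dist_le_zero.1 h4
  subst h5
  rw [dist_self, mul_zero, add_zero] at hy
  exact hy le_rfl

end Pool.Agent.BEL.H61
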