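import Mathlib

/-!
# Squad BEL (MP_be01ff_an): the noncommutative rising sun lemma (Lemma A) and the counting

Matrix part: determinants of positive matrices and the recursion
`G 0 = 0`, `G (k+1) = (T k)⁻ᵀ (μ G k + ν) (T k)⁻¹`.
-/

set_option autoImplicit false

open Matrix
open scoped MatrixOrder

noncomputable section

namespace Pool.Agent.BEL.H61

section det

variable {n : Type} [Fintype n] [DecidableEq n]

omit [DecidableEq n] in
theorem dot_nn {A : Matrix n n ℝ} (hA : A.PosSemidef) (x : n → ℝ) : 0 ≤ x ⬝ᵥ (A *ᵥ x) := by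
  have := hA.dotProduct_mulVec_nonneg x
  simpa using this

theorem eig_dot {A : Matrix n n ℝ} (hA : A.IsHermitian) (i : n) :
    hA.eigenvalues i = (⇑(hA.eigenvectorBasis i) : n → ℝ) ⬝ᵥ (A *ᵥ ⇑(hA.eigenvectorBasis i)) := by
  have := hA.eigenvalues_eq i
  simpa using this

theorem eig_norm {A : Matrix n n ℝ} (hA : A.IsHermitian) (i : n) :
    (⇑(hA.eigenvectorBasis i) : n → ℝ) ⬝ᵥ ⇑(hA.eigenvectorBasis i) = 1 := by
  have h := hA.eigenvectorBasis.orthonormal.1 i
  have h2 : ‖hA.eigenvectorBasis i‖ ^ 2 = 1 := by rw [h]; norm_num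
  rw [EuclideanSpace.norm_sq_eq] at h2
  rw [← h2]
  unfold dotProduct
  apply Finset.sum_congr rfl
  intro j _
  rw [Real.norm_eq_abs, sq_abs, sq]

theorem det_le_one {H : Matrix n n ℝ} (hH : H.PosSemidef) (h1 : (1 - H).PosSemidef) :
    H.det ≤ 1 := by
  rw [hH.1.det_eq_prod_eigenvalues]
  have h : ∀ i, hH.1.eigenvalues i ≤ 1 := by
    intro i
    have h2 := dot_nn h1 (⇑(hH.1.eigenvectorBasis i) : n → ℝ)
    rw [Matrix.sub_mulVec, Matrix.one_mulVec, dotProduct_sub, eig_norm, ← eig_dot] at h2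
    linarith
  have h3 : ∏ i, hH.1.eigenvalues i ≤ 1 :=
    Finset.prod_le_one (fun i _ => hH.eigenvalues_nonneg i) (fun i _ => h i)
  simpa using h3

theorem det_le {P S : Matrix n n ℝ} (hP : P.PosDef) (hS : S.PosSemidef)
    (h : (P - S).PosSemidef) : S.det ≤ P.det := by
  obtain ⟨B, hB⟩ := CStarAlgebra.nonneg_iff_eq_star_mul_self.mp hP.posSemidef.nonneg
  rw [star_eq_conjTranspose, conjTranspose_eq_transpose_of_trivial] at hB
  have hdP : P.det = B.det ^ 2 := by
    rw [hB, det_mul, det_transpose, sq]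
  have hd0 : B.det ≠ 0 := by
    intro h0
    have := hP.det_pos
    rw [hdP, h0] at this
    norm_num at this
  have hu : IsUnit B.det := isUnit_iff_ne_zero.2 hd0
  have h1 : B * B⁻¹ = 1 := mul_nonsing_inv B hu
  have h2 : (B⁻¹)ᵀ * Bᵀ = 1 := by rw [← transpose_mul, h1, transpose_one]
  have h1' : B⁻¹ * B = 1 := nonsing_inv_mul B hu
  have h2' : Bᵀ * (B⁻¹)ᵀ = 1 := by rw [← transpose_mul, h1', transpose_one]
  have hH : ((B⁻¹)ᵀ * S * B⁻¹).PosSemidef := by
    have := hS.conjTranspose_mul_mul_same B⁻¹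
    rwa [conjTranspose_eq_transpose_of_trivial] at this
  have hH1 : (1 - (B⁻¹)ᵀ * S * B⁻¹).PosSemidef := by
    have h3 := h.conjTranspose_mul_mul_same B⁻¹
    rw [conjTranspose_eq_transpose_of_trivial] at h3
    have h4 : (B⁻¹)ᵀ * (P - S) * B⁻¹ = 1 - (B⁻¹)ᵀ * S * B⁻¹ := by
      rw [Matrix.mul_sub, Matrix.sub_mul, hB, ← Matrix.mul_assoc, h2, Matrix.one_mul, h1]
    rwa [h4] at h3
  have h5 := det_le_one hH hH1
  have h6 : S = Bᵀ * ((B⁻¹)ᵀ * S * B⁻¹) * B := by
    calc S = (Bᵀ * (B⁻¹)ᵀ) * S * (B⁻¹ * B) := by rw [h2', h1', Matrix.one_mul, Matrix.mul_one]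
      _ = Bᵀ * ((B⁻¹)ᵀ * S * B⁻¹) * B := by simp only [Matrix.mul_assoc]
  have h7 : S.det = B.det ^ 2 * ((B⁻¹)ᵀ * S * B⁻¹).det := by
    conv_lhs => rw [h6]
    rw [det_mul, det_mul, det_transpose]
    ring
  rw [h7, hdP]
  have h8 : 0 ≤ B.det ^ 2 := sq_nonneg _
  nlinarith

/-- `det (c + μ G) = ∏ (c + μ g_i)` -/
theorem det_add {G : Matrix n n ℝ} (hG : G.IsHermitian) (c m : ℝ) :
    (c • (1 : Matrix n n ℝ) + m • G).det = ∏ i, (c + m * hG.eigenvalues i) := by
  let U : Matrix n n ℝ := (hG.eigenvectorUnitary : Matrix n n ℝ)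
  have hU1 : U * star U = 1 := Unitary.coe_mul_star_self hG.eigenvectorUnitary
  have hs : G = U * diagonal hG.eigenvalues * star U := by
    have := hG.spectral_theorem
    rw [Unitary.conjStarAlgAut_apply] at this
    simpa using this
  have h1 : c • (1 : Matrix n n ℝ) + m • G =
      U * diagonal (fun i => c + m * hG.eigenvalues i) * star U := by
    have h2 : diagonal (fun i => c + m * hG.eigenvalues i) =
        c • (1 : Matrix n n ℝ) + m • diagonal hG.eigenvalues := by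
      rw [smul_one_eq_diagonal, ← diagonal_smul, diagonal_add]
      rfl
    rw [h2, Matrix.mul_add, Matrix.add_mul, Matrix.mul_smul, Matrix.smul_mul, Matrix.mul_one, hU1,
      Matrix.mul_smul, Matrix.smul_mul, ← hs]
  rw [h1, det_mul, det_mul, det_diagonal]
  have h3 : U.det * (star U).det = 1 := by rw [← det_mul, hU1, det_one]
  calc U.det * (∏ i, (c + m * hG.eigenvalues i)) * (star U).det
      = (U.det * (star U).det) * ∏ i, (c + m * hG.eigenvalues i) := by ring
    _ = _ := by rw [h3, one_mul]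

end det

section rec

variable {n : Type} [Fintype n] [DecidableEq n]

/-- the recursion -/
def GG (μ ν : ℝ) (T : ℕ → Matrix n n ℝ) : ℕ → Matrix n n ℝ
  | 0 => 0
  | k + 1 => ((T k)⁻¹)ᵀ * (μ • GG μ ν T k + ν • (1 : Matrix n n ℝ)) * (T k)⁻¹

/-- transport from `j` to `j + m` -/
def trm (T : ℕ → Matrix n n ℝ) (j : ℕ) : ℕ → (n → ℝ) → (n → ℝ)
  | 0, X => X
  | m + 1, X => T (j + m) *ᵥ trm T j m X

theorem GG_psd {μ ν : ℝ} (hμ : 0 < μ) (hν : 0 < ν) (T : ℕ → Matrix n n ℝ) (k : ℕ) :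
    (GG μ ν T k).PosSemidef := by
  induction k with
  | zero => exact PosSemidef.zero
  | succ k ih =>
    have h1 : (μ • GG μ ν T k + ν • (1 : Matrix n n ℝ)).PosSemidef :=
      (ih.smul hμ.le).add (PosSemidef.one.smul hν.le)
    have h2 := h1.conjTranspose_mul_mul_same (T k)⁻¹
    rwa [conjTranspose_eq_transpose_of_trivial] at h2

theorem GG_step {μ ν : ℝ} (T : ℕ → Matrix n n ℝ) (k : ℕ) (hd : (T k).det ≠ 0) (Z : n → ℝ) :
    (T k *ᵥ Z) ⬝ᵥ (GG μ ν T (k + 1) *ᵥ (T k *ᵥ Z)) =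
      μ * (Z ⬝ᵥ (GG μ ν T k *ᵥ Z)) + ν * (Z ⬝ᵥ Z) := by
  have hu : IsUnit (T k).det := isUnit_iff_ne_zero.2 hd
  have h1 : (T k)⁻¹ * T k = 1 := nonsing_inv_mul _ hu
  have h2 : (T k)ᵀ * ((T k)⁻¹)ᵀ = 1 := by rw [← transpose_mul, h1, transpose_one]
  have h3 : (T k)ᵀ * GG μ ν T (k + 1) * T k = μ • GG μ ν T k + ν • (1 : Matrix n n ℝ) := by
    change (T k)ᵀ * (((T k)⁻¹)ᵀ * (μ • GG μ ν T k + ν • (1 : Matrix n n ℝ)) * (T k)⁻¹) * T k = _
    calc (T k)ᵀ * (((T k)⁻¹)ᵀ * (μ • GG μ ν T k + ν • (1 : Matrix n n ℝ)) * (T k)⁻¹) * T k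
        = ((T k)ᵀ * ((T k)⁻¹)ᵀ) * (μ • GG μ ν T k + ν • (1 : Matrix n n ℝ)) *
          ((T k)⁻¹ * T k) := by simp only [Matrix.mul_assoc]
      _ = _ := by rw [h1, h2, Matrix.one_mul, Matrix.mul_one]
  have h4 : (T k *ᵥ Z) ⬝ᵥ (GG μ ν T (k + 1) *ᵥ (T k *ᵥ Z)) =
      Z ⬝ᵥ (((T k)ᵀ * GG μ ν T (k + 1) * T k) *ᵥ Z) := by
    rw [← mulVec_mulVec, ← mulVec_mulVec, dotProduct_mulVec Z, vecMul_transpose]
  rw [h4, h3, Matrix.add_mulVec, Matrix.smul_mulVec, Matrix.smul_mulVec, Matrix.one_mulVec,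
    dotProduct_add, dotProduct_smul, dotProduct_smul, smul_eq_mul, smul_eq_mul]

/-- the lower bound of the form `G` along the orbit -/
theorem GG_lower {μ ν : ℝ} (hμ : 0 < μ) (hν : 0 < ν) (T : ℕ → Matrix n n ℝ)
    (hd : ∀ k, (T k).det ≠ 0) (j m : ℕ) (X : n → ℝ) :
    ν * μ ^ m * (X ⬝ᵥ X) ≤
      trm T j (m + 1) X ⬝ᵥ (GG μ ν T (j + m + 1) *ᵥ trm T j (m + 1) X) := by
  induction m with
  | zero =>
    have h1 := GG_step (μ := μ) (ν := ν) T j (hd j) X
    have h2 := dot_nn (GG_psd hμ hν T j) X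
    change _ ≤ (T (j + 0) *ᵥ X) ⬝ᵥ (GG μ ν T (j + 0 + 1) *ᵥ (T (j + 0) *ᵥ X))
    rw [Nat.add_zero, h1, pow_zero, mul_one]
    have h3 := mul_nonneg hμ.le h2
    linarith
  | succ m ih =>
    have h1 := GG_step (μ := μ) (ν := ν) T (j + m + 1) (hd _) (trm T j (m + 1) X)
    change _ ≤ (T (j + (m + 1)) *ᵥ trm T j (m + 1) X) ⬝ᵥ (GG μ ν T (j + (m + 1) + 1) *ᵥ
      (T (j + (m + 1)) *ᵥ trm T j (m + 1) X))
    rw [← Nat.add_assoc, h1]
    have h2 := mul_le_mul_of_nonneg_left ih hμ.le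
    have h3 : 0 ≤ trm T j (m + 1) X ⬝ᵥ trm T j (m + 1) X :=
      Finset.sum_nonneg fun i _ => mul_self_nonneg _
    have h4 := mul_nonneg hν.le h3
    have h5 : ν * μ ^ (m + 1) * (X ⬝ᵥ X) = μ * (ν * μ ^ m * (X ⬝ᵥ X)) := by ring
    rw [h5]
    linarith

/-- the scalar inequality -/
theorem scal {μ ν M : ℝ} (hμ : 0 < μ) (hμ1 : μ < 1) (hν : 0 < ν) (hM : 0 < M)
    (h : 1 + ν + μ * M ≤ Real.sqrt μ * (1 + M)) (g : ℝ) (hg : 0 ≤ g) :
    Real.log (1 + ν + μ * g) ≤ Real.log (1 + g) +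
      (if M < g then - (Real.log (1 / μ) / 2) else ν) := by
  have h0 : 0 < 1 + g := by linarith
  split_ifs with hc
  · have hs : 0 < Real.sqrt μ := Real.sqrt_pos.2 hμ
    have hms : μ ≤ Real.sqrt μ := by
      have h1 : Real.sqrt μ ≤ 1 := by
        rw [Real.sqrt_le_left (by norm_num)]
        linarith
      calc μ = Real.sqrt μ * Real.sqrt μ := (Real.mul_self_sqrt hμ.le).symm
        _ ≤ Real.sqrt μ * 1 := mul_le_mul_of_nonneg_left h1 hs.le
        _ = Real.sqrt μ := mul_one _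
    have h1 : 1 + ν + μ * g ≤ Real.sqrt μ * (1 + g) := by nlinarith
    have h2 : Real.log (1 + ν + μ * g) ≤ Real.log (Real.sqrt μ * (1 + g)) :=
      Real.log_le_log (by positivity) h1
    rw [Real.log_mul hs.ne' h0.ne', Real.log_sqrt hμ.le] at h2
    have h3 : Real.log (1 / μ) = - Real.log μ := by rw [one_div, Real.log_inv]
    rw [h3]
    linarith
  · have h1 : 1 + ν + μ * g ≤ (1 + g) * (1 + ν) := by
      have : μ * g ≤ 1 * g := mul_le_mul_of_nonneg_right hμ1.le hg
      nlinarith [mul_nonneg hg hν.le]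
    have h2 : Real.log (1 + ν + μ * g) ≤ Real.log ((1 + g) * (1 + ν)) :=
      Real.log_le_log (by positivity) h1
    rw [Real.log_mul h0.ne' (by positivity)] at h2
    have h3 : Real.log (1 + ν) ≤ ν := by
      have := Real.log_le_sub_one_of_pos (show 0 < 1 + ν by linarith)
      linarith
    linarith

/-- number of large eigenvalues -/
def NN {G : Matrix n n ℝ} (hG : G.IsHermitian) (M : ℝ) : ℕ :=
  (Finset.univ.filter fun i => M < hG.eigenvalues i).card

/-- one step of the potential -/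
theorem step {μ ν M : ℝ} (hμ : 0 < μ) (hμ1 : μ < 1) (hν : 0 < ν) (hM : 0 < M)
    (h : 1 + ν + μ * M ≤ Real.sqrt μ * (1 + M)) (T : ℕ → Matrix n n ℝ)
    (hT : ∀ k, (1 - (T k)ᵀ * T k).PosSemidef) (hd : ∀ k, (T k).det ≠ 0) (k : ℕ) :
    Real.log (1 + GG μ ν T (k + 1)).det ≤ Real.log (1 + GG μ ν T k).det
      - Real.log (1 / μ) / 2 * NN (GG_psd hμ hν T k).1 M + ν * Fintype.card n
      - 2 * Real.log |(T k).det| := by
  have hu : IsUnit (T k).det := isUnit_iff_ne_zero.2 (hd k)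
  have h1 : T k * (T k)⁻¹ = 1 := mul_nonsing_inv _ hu
  have h2 : ((T k)⁻¹)ᵀ * (T k)ᵀ = 1 := by rw [← transpose_mul, h1, transpose_one]
  have hG := GG_psd hμ hν T k
  have hG1 := GG_psd hμ hν T (k + 1)
  set X : Matrix n n ℝ := μ • GG μ ν T k + ν • (1 : Matrix n n ℝ) with hX
  have hXp : X.PosSemidef := (hG.smul hμ.le).add (PosSemidef.one.smul hν.le)
  have h3 : 1 + GG μ ν T (k + 1) = ((T k)⁻¹)ᵀ * ((T k)ᵀ * T k + X) * (T k)⁻¹ := by
    have h31 : ((T k)⁻¹)ᵀ * ((T k)ᵀ * T k + X) * (T k)⁻¹ =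
        (((T k)⁻¹)ᵀ * (T k)ᵀ) * (T k * (T k)⁻¹) + ((T k)⁻¹)ᵀ * X * (T k)⁻¹ := by
      rw [Matrix.mul_add, Matrix.add_mul]
      simp only [Matrix.mul_assoc]
    rw [h31, h2, h1, Matrix.one_mul]
    rfl
  have h4 : (T k).det * ((T k)⁻¹).det = 1 := by rw [← det_mul, h1, det_one]
  have h5 : (T k).det ^ 2 * (1 + GG μ ν T (k + 1)).det = ((T k)ᵀ * T k + X).det := by
    rw [h3, det_mul, det_mul, det_transpose]
    calc (T k).det ^ 2 * (((T k)⁻¹).det * ((T k)ᵀ * T k + X).det * ((T k)⁻¹).det)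
        = ((T k).det * ((T k)⁻¹).det) ^ 2 * ((T k)ᵀ * T k + X).det := by ring
      _ = _ := by rw [h4]; ring
  have h6 : ((T k)ᵀ * T k + X).det ≤ (1 + X).det := by
    apply det_le
    · exact PosDef.one.add_posSemidef hXp
    · have := posSemidef_conjTranspose_mul_self (T k)
      rw [conjTranspose_eq_transpose_of_trivial] at this
      exact this.add hXp
    · have h7 : 1 + X - ((T k)ᵀ * T k + X) = 1 - (T k)ᵀ * T k := by abel
      rw [h7]
      exact hT k
  have h7 : (1 + X).det = ∏ i, (1 + ν + μ * hG.1.eigenvalues i) := by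
    rw [← det_add hG.1, hX, add_smul, one_smul]
    congr 1
    abel
  have h8 : (1 + GG μ ν T k).det = ∏ i, (1 + hG.1.eigenvalues i) := by
    have := det_add hG.1 1 1
    simp only [one_smul, one_mul] at this
    exact this
  have hpos : ∀ i, 0 ≤ hG.1.eigenvalues i := hG.eigenvalues_nonneg
  have h9 : 0 < (1 + GG μ ν T (k + 1)).det := (PosDef.one.add_posSemidef hG1).det_pos
  have h10 : Real.log ((T k).det ^ 2 * (1 + GG μ ν T (k + 1)).det) ≤
      ∑ i, Real.log (1 + ν + μ * hG.1.eigenvalues i) := by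
    rw [← Real.log_prod (fun i _ => by
      have := mul_nonneg hμ.le (hpos i)
      positivity), ← h7, h5]
    apply Real.log_le_log _ h6
    rw [← h5]
    have : 0 < (T k).det ^ 2 := by
      have := hd k
      positivity
    positivity
  rw [Real.log_mul (pow_ne_zero 2 (hd k)) h9.ne'] at h10
  have h11 : Real.log ((T k).det ^ 2) = 2 * Real.log |(T k).det| := by
    rw [← sq_abs, Real.log_pow]
    norm_num
  rw [h11] at h10
  have h12 : ∑ i, Real.log (1 + ν + μ * hG.1.eigenvalues i) ≤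
      ∑ i, (Real.log (1 + hG.1.eigenvalues i) +
        (if M < hG.1.eigenvalues i then - (Real.log (1 / μ) / 2) else ν)) :=
    Finset.sum_le_sum fun i _ => scal hμ hμ1 hν hM h _ (hpos i)
  have h13 : ∑ i, Real.log (1 + hG.1.eigenvalues i) = Real.log (1 + GG μ ν T k).det := by
    rw [h8, Real.log_prod (fun i _ => by
      have := hpos i
      positivity)]
  have h14 : ∑ i, (if M < hG.1.eigenvalues i then - (Real.log (1 / μ) / 2) else ν) ≤
      - (Real.log (1 / μ) / 2) * NN hG.1 M + ν * Fintype.card n := by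
    rw [Finset.sum_ite, Finset.sum_const, Finset.sum_const, nsmul_eq_mul, nsmul_eq_mul]
    have h15 : ((Finset.univ.filter fun i => ¬ M < hG.1.eigenvalues i).card : ℝ) ≤
        Fintype.card n := by
      exact_mod_cast Finset.card_filter_le _ _
    have h16 := mul_le_mul_of_nonneg_left h15 hν.le
    unfold NN
    linarith
  rw [Finset.sum_add_distrib, h13] at h12
  linarith

/-- the eigenspace with small eigenvalues -/
def FF {G : Matrix n n ℝ} (hG : G.IsHermitian) (M : ℝ) : Submodule ℝ (EuclideanSpace ℝ n) :=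
  Submodule.span ℝ (Set.range fun i : {i // hG.eigenvalues i ≤ M} => hG.eigenvectorBasis i)

theorem FF_dim {G : Matrix n n ℝ} (hG : G.IsHermitian) (M : ℝ) :
    Module.finrank ℝ (FF hG M) + NN hG M = Fintype.card n := by
  have hli : LinearIndependent ℝ (fun i : {i // hG.eigenvalues i ≤ M} => hG.eigenvectorBasis i) :=
    hG.eigenvectorBasis.orthonormal.linearIndependent.comp _ Subtype.val_injective
  have h1 := finrank_span_eq_card hli
  unfold FF NN
  rw [h1, Fintype.card_subtype]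
  have h2 := Finset.card_filter_add_card_filter_not (s := (Finset.univ : Finset n))
    (p := fun i => hG.eigenvalues i ≤ M)
  rw [Finset.card_univ] at h2
  rw [← h2]
  congr 2
  ext i
  simp

theorem FF_form {G : Matrix n n ℝ} (hG : G.IsHermitian) {M : ℝ} {W : EuclideanSpace ℝ n}
    (hW : W ∈ FF hG M) : (W.ofLp ⬝ᵥ (G *ᵥ W.ofLp)) ≤ M * (W.ofLp ⬝ᵥ W.ofLp) := by
  have hz : ∀ i, M < hG.eigenvalues i → inner ℝ (hG.eigenvectorBasis i) W = 0 := by
    intro i hi
    unfold FF at hW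
    refine Submodule.span_induction (p := fun w _ => inner ℝ (hG.eigenvectorBasis i) w = 0)
      ?_ ?_ ?_ ?_ hW
    · rintro _ ⟨j, rfl⟩
      have hij : i ≠ j.1 := by
        rintro rfl
        exact absurd j.2 (not_le.2 hi)
      exact hG.eigenvectorBasis.orthonormal.2 hij
    · exact inner_zero_right _
    · intro a b _ _ ha hb
      rw [inner_add_right, ha, hb, add_zero]
    · intro c a _ ha
      change inner ℝ (hG.eigenvectorBasis i) (c • a) = 0
      rw [inner_smul_right, ha, mul_zero]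
  have hdot : ∀ a b : EuclideanSpace ℝ n, inner ℝ a b = a.ofLp ⬝ᵥ b.ofLp := by
    intro a b
    rw [EuclideanSpace.inner_eq_star_dotProduct, dotProduct_comm]
    simp
  let GW : EuclideanSpace ℝ n := WithLp.toLp 2 (G *ᵥ W.ofLp)
  have hGW : ∀ i, inner ℝ (hG.eigenvectorBasis i) GW =
      hG.eigenvalues i * inner ℝ (hG.eigenvectorBasis i) W := by
    intro i
    rw [hdot, hdot]
    change (hG.eigenvectorBasis i).ofLp ⬝ᵥ (G *ᵥ W.ofLp) = _
    rw [dotProduct_mulVec, ← mulVec_transpose]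
    have hGt : Gᵀ = G := by
      have := hG
      rwa [IsHermitian, conjTranspose_eq_transpose_of_trivial] at this
    rw [hGt]
    have := hG.mulVec_eigenvectorBasis i
    change G *ᵥ (hG.eigenvectorBasis i).ofLp = hG.eigenvalues i • (hG.eigenvectorBasis i).ofLp at this
    rw [this, smul_dotProduct, smul_eq_mul]
  have h1 : W.ofLp ⬝ᵥ (G *ᵥ W.ofLp) = ∑ i, hG.eigenvalues i *
      inner ℝ (hG.eigenvectorBasis i) W ^ 2 := by
    have h2 := hG.eigenvectorBasis.sum_inner_mul_inner W GW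
    rw [hdot W GW] at h2
    change _ = W.ofLp ⬝ᵥ (G *ᵥ W.ofLp) at h2
    rw [← h2]
    apply Finset.sum_congr rfl
    intro i _
    rw [hGW i, real_inner_comm]
    ring
  have h2 : W.ofLp ⬝ᵥ W.ofLp = ∑ i, inner ℝ (hG.eigenvectorBasis i) W ^ 2 := by
    have h3 := hG.eigenvectorBasis.sum_inner_mul_inner W W
    rw [hdot W W] at h3
    rw [← h3]
    apply Finset.sum_congr rfl
    intro i _
    rw [real_inner_comm]
    ring
  rw [h1, h2, Finset.mul_sum]
  apply Finset.sum_le_sum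
  intro i _
  rcases le_or_gt (hG.eigenvalues i) M with h | h
  · exact mul_le_mul_of_nonneg_right h (sq_nonneg _)
  · rw [hz i h]
    norm_num

/-- the counting, matrix form -/
theorem count {μ ν M : ℝ} (hμ : 0 < μ) (hμ1 : μ < 1) (hν : 0 < ν) (hM : 0 < M)
    (h : 1 + ν + μ * M ≤ Real.sqrt μ * (1 + M)) (T : ℕ → Matrix n n ℝ)
    (hT : ∀ k, (1 - (T k)ᵀ * T k).PosSemidef) (hd : ∀ k, (T k).det ≠ 0) (K : ℕ) :
    Real.log (1 / μ) / 4 * Fintype.card n *
      (((Finset.range K).filter fun k =>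
        Fintype.card n < 2 * NN (GG_psd hμ hν T k).1 M).card : ℝ) ≤
      ν * Fintype.card n * K + 2 * ∑ k ∈ Finset.range K, (- Real.log |(T k).det|) := by
  have hlog : 0 < Real.log (1 / μ) := by
    apply Real.log_pos
    rw [lt_div_iff₀ hμ]
    linarith
  have hφ0 : Real.log (1 + GG μ ν T 0).det = 0 := by
    change Real.log (1 + (0 : Matrix n n ℝ)).det = 0
    rw [add_zero, det_one, Real.log_one]
  have hφ : 0 ≤ Real.log (1 + GG μ ν T K).det := by
    apply Real.log_nonneg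
    have h1 : (1 + GG μ ν T K - 1).PosSemidef := by
      rw [add_sub_cancel_left]
      exact GG_psd hμ hν T K
    have h2 := det_le (PosDef.one.add_posSemidef (GG_psd hμ hν T K)) PosSemidef.one h1
    rwa [det_one] at h2
  have htel : Real.log (1 + GG μ ν T K).det ≤ ∑ k ∈ Finset.range K,
      (- (Real.log (1 / μ) / 2 * NN (GG_psd hμ hν T k).1 M) + ν * Fintype.card n
      - 2 * Real.log |(T k).det|) := by
    have h1 : ∀ m : ℕ, Real.log (1 + GG μ ν T m).det ≤ ∑ k ∈ Finset.range m,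
      (- (Real.log (1 / μ) / 2 * NN (GG_psd hμ hν T k).1 M) + ν * Fintype.card n
      - 2 * Real.log |(T k).det|) := by
      intro m
      induction m with
      | zero => rw [hφ0, Finset.range_zero, Finset.sum_empty]
      | succ m ih =>
        rw [Finset.sum_range_succ]
        have h2 := step hμ hμ1 hν hM h T hT hd m
        linarith
    exact h1 K
  have hsum : ∑ k ∈ Finset.range K,
      (- (Real.log (1 / μ) / 2 * NN (GG_psd hμ hν T k).1 M) + ν * Fintype.card n
      - 2 * Real.log |(T k).det|) =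
      - ∑ k ∈ Finset.range K, (Real.log (1 / μ) / 2 * NN (GG_psd hμ hν T k).1 M) +
        ν * Fintype.card n * K + 2 * ∑ k ∈ Finset.range K, (- Real.log |(T k).det|) := by
    have h1 : ∀ f g : ℕ → ℝ, ∀ c : ℝ, ∑ k ∈ Finset.range K, (- f k + c - 2 * g k) =
        - ∑ k ∈ Finset.range K, f k + c * K + 2 * ∑ k ∈ Finset.range K, (- g k) := by
      intro f g c
      rw [Finset.sum_sub_distrib, Finset.sum_add_distrib, Finset.sum_neg_distrib,
        Finset.sum_neg_distrib, Finset.sum_const, Finset.card_range, nsmul_eq_mul,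
        ← Finset.mul_sum]
      ring
    exact h1 (fun k => Real.log (1 / μ) / 2 * NN (GG_psd hμ hν T k).1 M)
      (fun k => Real.log |(T k).det|) (ν * Fintype.card n)
  have hbad : Real.log (1 / μ) / 4 * Fintype.card n *
      (((Finset.range K).filter fun k =>
        Fintype.card n < 2 * NN (GG_psd hμ hν T k).1 M).card : ℝ) ≤
      ∑ k ∈ Finset.range K, (Real.log (1 / μ) / 2 * NN (GG_psd hμ hν T k).1 M) := by
    calc Real.log (1 / μ) / 4 * Fintype.card n *
      (((Finset.range K).filter fun k =>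
        Fintype.card n < 2 * NN (GG_psd hμ hν T k).1 M).card : ℝ)
        = ∑ k ∈ (Finset.range K).filter fun k =>
          Fintype.card n < 2 * NN (GG_psd hμ hν T k).1 M,
          Real.log (1 / μ) / 4 * Fintype.card n := by
          rw [Finset.sum_const, nsmul_eq_mul]
          ring
      _ ≤ ∑ k ∈ (Finset.range K).filter fun k =>
          Fintype.card n < 2 * NN (GG_psd hμ hν T k).1 M,
          (Real.log (1 / μ) / 2 * NN (GG_psd hμ hν T k).1 M) := by
          apply Finset.sum_le_sum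
          intro k hk
          have h1 := (Finset.mem_filter.1 hk).2
          have h2 : (Fintype.card n : ℝ) < 2 * NN (GG_psd hμ hν T k).1 M := by exact_mod_cast h1
          nlinarith
      _ ≤ _ := by
          apply Finset.sum_le_sum_of_subset_of_nonneg (Finset.filter_subset _ _)
          intro k _ _
          positivity
  linarith

end rec

section final

variable {E : Type} [NormedAddCommGroup E] [InnerProductSpace ℝ E] [FiniteDimensional ℝ E]

/-- transport from `j` to `j + m`: `T (j+m-1) ∘ ... ∘ T j` -/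
def tr (T : ℕ → E →ₗ[ℝ] E) (j : ℕ) : ℕ → (E →ₗ[ℝ] E)
  | 0 => LinearMap.id
  | m + 1 => T (j + m) ∘ₗ tr T j m

/-- Lemma A with the counting. -/
theorem lemA (T : ℕ → E →ₗ[ℝ] E) (hT : ∀ k x, ‖T k x‖ ≤ ‖x‖) (hd : ∀ k, LinearMap.det (T k) ≠ 0)
    (hE : 0 < Module.finrank ℝ E) {μ ν M : ℝ} (hμ : 0 < μ) (hμ1 : μ < 1) (hν : 0 < ν) (hM : 0 < M)
    (h : 1 + ν + μ * M ≤ Real.sqrt μ * (1 + M)) (K : ℕ) :
    ∃ bad : Finset ℕ, bad ⊆ Finset.range K ∧
      Real.log (1 / μ) / 4 * (bad.card : ℝ) ≤ ν * K +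
        2 * ∑ k ∈ Finset.range K,
          (- Real.log |LinearMap.det (T k)| / (Module.finrank ℝ E : ℝ)) ∧
      ∀ k < K, k ∉ bad → ∃ F : Submodule ℝ E,
        Module.finrank ℝ E ≤ 2 * Module.finrank ℝ F ∧
        ∀ j m, j + m + 1 = k → ∀ X : E, tr T j (m + 1) X ∈ F →
          ‖X‖ ^ 2 ≤ M / ν * (μ ^ m)⁻¹ * ‖tr T j (m + 1) X‖ ^ 2 := by
  classical
  set d := Module.finrank ℝ E with hdd
  let b : OrthonormalBasis (Fin d) ℝ E := stdOrthonormalBasis ℝ E
  let A : ℕ → Matrix (Fin d) (Fin d) ℝ := fun k => LinearMap.toMatrix b.toBasis b.toBasis (T k)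
  have hA : ∀ k x, A k *ᵥ (b.repr x).ofLp = (b.repr (T k x)).ofLp := by
    intro k x
    have h1 := LinearMap.toMatrix_mulVec_repr b.toBasis b.toBasis (T k) x
    funext i
    have h2 := congrFun h1 i
    rw [b.coe_toBasis_repr_apply] at h2
    rw [← h2]
    rfl
  have hnorm : ∀ y : E, (b.repr y).ofLp ⬝ᵥ (b.repr y).ofLp = ‖y‖ ^ 2 := by
    intro y
    rw [← b.repr.norm_map y, EuclideanSpace.norm_sq_eq]
    unfold dotProduct
    apply Finset.sum_congr rfl
    intro i _
    rw [Real.norm_eq_abs, sq_abs, sq]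
  have hAc : ∀ k, (1 - (A k)ᵀ * A k).PosSemidef := by
    intro k
    apply PosSemidef.of_dotProduct_mulVec_nonneg
    · rw [IsHermitian, conjTranspose_eq_transpose_of_trivial, transpose_sub, transpose_one,
        transpose_mul, transpose_transpose]
    · intro x
      obtain ⟨y, hy⟩ := b.repr.surjective (WithLp.toLp 2 x)
      have hx : x = (b.repr y).ofLp := by rw [hy]
      rw [star_trivial, Matrix.sub_mulVec, Matrix.one_mulVec, dotProduct_sub, ← mulVec_mulVec,
        dotProduct_mulVec x, vecMul_transpose, hx, hA, hnorm, hnorm]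
      have h1 := hT k y
      have h2 := norm_nonneg (T k y)
      nlinarith
  have hAd : ∀ k, (A k).det = LinearMap.det (T k) := fun k => LinearMap.det_toMatrix b.toBasis (T k)
  have hAd0 : ∀ k, (A k).det ≠ 0 := fun k => by
    rw [hAd]
    exact hd k
  have htr : ∀ j m x, trm A j m (b.repr x).ofLp = (b.repr (tr T j m x)).ofLp := by
    intro j m
    induction m with
    | zero => intro x; rfl
    | succ m ih =>
      intro x
      change A (j + m) *ᵥ trm A j m (b.repr x).ofLp = (b.repr (T (j + m) (tr T j m x))).ofLp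
      rw [ih, hA]
  refine ⟨(Finset.range K).filter fun k => Fintype.card (Fin d) <
    2 * NN (GG_psd hμ hν A k).1 M, Finset.filter_subset _ _, ?_, ?_⟩
  · have h1 := count hμ hμ1 hν hM h A hAc hAd0 K
    have hdpos : (0 : ℝ) < d := by exact_mod_cast hE
    simp only [Fintype.card_fin, hAd] at h1 ⊢
    have h2 : ∑ k ∈ Finset.range K, (- Real.log |LinearMap.det (T k)| / (d : ℝ)) =
        (∑ k ∈ Finset.range K, (- Real.log |LinearMap.det (T k)|)) / d := by
      rw [Finset.sum_div]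
    rw [h2]
    have h3 : ν * (K : ℝ) + 2 * ((∑ k ∈ Finset.range K, (- Real.log |LinearMap.det (T k)|)) / d) =
        (ν * d * K + 2 * ∑ k ∈ Finset.range K, (- Real.log |LinearMap.det (T k)|)) / d := by
      field_simp
    rw [h3, le_div_iff₀ hdpos]
    linarith
  · intro k hk hkb
    have hG := GG_psd hμ hν A k
    have hNN : ¬ Fintype.card (Fin d) < 2 * NN hG.1 M := by
      intro hc
      exact hkb (Finset.mem_filter.2 ⟨Finset.mem_range.2 hk, hc⟩)
    refine ⟨(FF hG.1 M).comap (b.repr.toLinearEquiv : E →ₗ[ℝ] EuclideanSpace ℝ (Fin d)), ?_, ?_⟩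
    · have h1 := FF_dim hG.1 M
      have h2 : Module.finrank ℝ ((FF hG.1 M).comap
          (b.repr.toLinearEquiv : E →ₗ[ℝ] EuclideanSpace ℝ (Fin d))) =
          Module.finrank ℝ (FF hG.1 M) := by
        have h3 : (FF hG.1 M).comap
          (b.repr.toLinearEquiv : E →ₗ[ℝ] EuclideanSpace ℝ (Fin d)) =
          (FF hG.1 M).map (b.repr.toLinearEquiv.symm : EuclideanSpace ℝ (Fin d) →ₗ[ℝ] E) :=
          Submodule.comap_equiv_eq_map_symm _ _
        rw [h3]
        exact LinearEquiv.finrank_map_eq b.repr.toLinearEquiv.symm (FF hG.1 M)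
      rw [h2]
      rw [Fintype.card_fin] at h1 hNN
      omega
    · intro j m hjm X hX
      have hX' : b.repr (tr T j (m + 1) X) ∈ FF hG.1 M := hX
      have h1 := FF_form hG.1 hX'
      have h2 := GG_lower hμ hν A hAd0 j m (b.repr X).ofLp
      rw [htr, hjm, hnorm] at h2
      rw [hnorm] at h1
      have h3 : ν * μ ^ m * ‖X‖ ^ 2 ≤ M * ‖tr T j (m + 1) X‖ ^ 2 := le_trans h2 h1
      have h4 : 0 < ν * μ ^ m := by positivity
      have h5 : ‖X‖ ^ 2 ≤ M * ‖tr T j (m + 1) X‖ ^ 2 / (ν * μ ^ m) := by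
        rw [le_div_iff₀ h4]
        linarith
      refine le_trans h5 (le_of_eq ?_)
      field_simp

end final

end Pool.Agent.BEL.H61
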