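import Pool.Agent.BEL.StmtsC

/-!
# Squad BEL, row COE: coercivity of the truncated nonlinearity
-/

set_option autoImplicit false

namespace Pool.Agent.BEL.H61

open MeasureTheory Set

theorem mm_nn {al l : ℝ} (hl : 0 < l) (s : ℝ) : 0 ≤ mm al l s :=
  Real.rpow_nonneg (le_min (abs_nonneg s) hl.le) _

theorem mm_le {al l : ℝ} (hal : 0 < al) (hl : 0 < l) {s t : ℝ} (h : |s| ≤ |t|) :
    mm al l s ≤ mm al l t :=
  Real.rpow_le_rpow (le_min (abs_nonneg s) hl.le) (min_le_min_right _ h) hal.le

theorem mm_sc {al l : ℝ} (hal : 0 < al) (hl : 0 < l) {c s t : ℝ} (hc : 1 ≤ c)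
    (h : |s| ≤ c * |t|) : mm al l s ≤ c ^ al * mm al l t := by
  unfold mm
  rw [← Real.mul_rpow (by linarith) (le_min (abs_nonneg t) hl.le)]
  apply Real.rpow_le_rpow (le_min (abs_nonneg s) hl.le) _ hal.le
  rw [mul_min_of_nonneg _ _ (by linarith : (0 : ℝ) ≤ c)]
  apply min_le_min h
  nlinarith

theorem mm_cont {al : ℝ} (hal : 0 < al) (l : ℝ) : Continuous (mm al l) := by
  unfold mm
  exact (continuous_abs.min continuous_const).rpow_const (fun _ => Or.inr hal.le)

theorem ql_cont (a : ℝ) {al : ℝ} (hal : 0 < al) (l : ℝ) : Continuous (ql a al l) := by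
  unfold ql
  exact continuous_const.mul (mm_cont hal l)

theorem ql_nn {a al l : ℝ} (ha : 0 < a) (hal : 0 < al) (hl : 0 < l) (s : ℝ) :
    0 ≤ ql a al l s := by
  unfold ql
  have := mm_nn (al := al) hl s
  positivity

/-- `gl s / s` -/
noncomputable def psi (a al l s : ℝ) : ℝ := ∫ u in (0 : ℝ)..1, ql a al l (s * u)

theorem gl_psi (a al l s : ℝ) : gl a al l s = s * psi a al l s := by
  unfold gl psi
  have h := intervalIntegral.smul_integral_comp_mul_left (a := 0) (b := 1) (ql a al l) s
  rw [mul_zero, mul_one, smul_eq_mul] at h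
  exact h.symm

theorem psi_nn {a al l : ℝ} (ha : 0 < a) (hal : 0 < al) (hl : 0 < l) (s : ℝ) :
    0 ≤ psi a al l s := by
  unfold psi
  exact intervalIntegral.integral_nonneg zero_le_one (fun u _ => ql_nn ha hal hl _)

theorem psi_le {a al l : ℝ} (ha : 0 < a) (hal : 0 < al) (hl : 0 < l) {s t : ℝ}
    (h : |s| ≤ |t|) : psi a al l s ≤ psi a al l t := by
  unfold psi
  apply intervalIntegral.integral_mono_on zero_le_one
  · exact ((ql_cont a hal l).comp (continuous_const.mul continuous_id)).intervalIntegrable _ _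
  · exact ((ql_cont a hal l).comp (continuous_const.mul continuous_id)).intervalIntegrable _ _
  · intro u _
    unfold ql
    apply mul_le_mul_of_nonneg_left _ (by positivity)
    apply mm_le hal hl
    rw [abs_mul, abs_mul]
    exact mul_le_mul_of_nonneg_right h (abs_nonneg u)

theorem psi_lower {a al l : ℝ} (ha : 0 < a) (hal : 0 < al) (hl : 0 < l) (s : ℝ) :
    a * mm al l s ≤ psi a al l s := by
  have h1 : ∫ u in (0 : ℝ)..1, (a * (al + 1) * mm al l s) * u ^ al = a * mm al l s := by
    rw [intervalIntegral.integral_const_mul, integral_rpow (Or.inl (by linarith))]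
    rw [Real.one_rpow, Real.zero_rpow (by linarith), sub_zero]
    have : al + 1 ≠ 0 := by linarith
    field_simp
  rw [← h1]
  unfold psi
  apply intervalIntegral.integral_mono_on zero_le_one
  · apply Continuous.intervalIntegrable
    exact continuous_const.mul (continuous_id.rpow_const (fun _ => Or.inr hal.le))
  · exact ((ql_cont a hal l).comp (continuous_const.mul continuous_id)).intervalIntegrable _ _
  · intro u hu
    unfold ql
    rw [mul_assoc]
    apply mul_le_mul_of_nonneg_left _ (by positivity)
    unfold mm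
    rw [← Real.mul_rpow (le_min (abs_nonneg s) hl.le) hu.1]
    apply Real.rpow_le_rpow (mul_nonneg (le_min (abs_nonneg s) hl.le) hu.1) _ hal.le
    rw [abs_mul, abs_of_nonneg hu.1, min_mul_of_nonneg _ _ hu.1]
    apply min_le_min le_rfl
    have := hu.2
    nlinarith

theorem psi_upper {a al l : ℝ} (ha : 0 < a) (hal : 0 < al) (hl : 0 < l) (s : ℝ) :
    psi a al l s ≤ ql a al l s := by
  have h1 : ∫ u in (0 : ℝ)..1, ql a al l s = ql a al l s := by
    rw [intervalIntegral.integral_const]
    simp
  rw [← h1]
  unfold psi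
  apply intervalIntegral.integral_mono_on zero_le_one
  · exact ((ql_cont a hal l).comp (continuous_const.mul continuous_id)).intervalIntegrable _ _
  · exact continuous_const.intervalIntegrable _ _
  · intro u hu
    unfold ql
    apply mul_le_mul_of_nonneg_left _ (by positivity)
    apply mm_le hal hl
    rw [abs_mul, abs_of_nonneg hu.1]
    have := hu.2
    have := abs_nonneg s
    nlinarith

theorem abs_gl {a al l : ℝ} (ha : 0 < a) (hal : 0 < al) (hl : 0 < l) (s : ℝ) :
    |gl a al l s| ≤ a * (al + 1) * mm al l s * |s| := by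
  rw [gl_psi, abs_mul, abs_of_nonneg (psi_nn ha hal hl s), mul_comm]
  exact mul_le_mul_of_nonneg_right (psi_upper ha hal hl s) (abs_nonneg s)

/-- explicit constant -/
theorem coe' {a al l : ℝ} (ha : 0 < a) (hal : 0 < al) (hl : 0 < l) (x d : ℝ) :
    a / (2 * (1 + 2 ^ al)) * (mm al l x + mm al l d) * d ^ 2 ≤
      (gl a al l (x + d) - gl a al l x) * d := by
  set z := x + d with hz
  have hd : d = z - x := by rw [hz]; ring
  have hzn := psi_nn ha hal hl z
  have hxn := psi_nn ha hal hl x
  have h1 : (1 / 2) * (psi a al l z + psi a al l x) * d ^ 2 ≤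
      (gl a al l z - gl a al l x) * d := by
    have h2 : 0 ≤ (psi a al l z - psi a al l x) * (z ^ 2 - x ^ 2) := by
      rcases le_total |x| |z| with h | h
      · have h3 := psi_le ha hal hl h
        have h4 : x ^ 2 ≤ z ^ 2 := sq_le_sq.2 h
        exact mul_nonneg (by linarith) (by linarith)
      · have h3 := psi_le ha hal hl h
        have h4 : z ^ 2 ≤ x ^ 2 := sq_le_sq.2 h
        exact mul_nonneg_of_nonpos_of_nonpos (by linarith) (by linarith)
    rw [gl_psi, gl_psi, hd]
    nlinarith
  have hdab : |d| ≤ |z| + |x| := by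
    rw [hd]
    exact abs_sub _ _
  have h5 : a * (mm al l x + mm al l d) ≤ (1 + 2 ^ al) * (psi a al l z + psi a al l x) := by
    have h2p : (0 : ℝ) < 2 ^ al := by positivity
    rcases le_total |x| |z| with h | h
    · have h6 : mm al l x ≤ mm al l z := mm_le hal hl h
      have h7 : mm al l d ≤ 2 ^ al * mm al l z := mm_sc hal hl (by norm_num) (by linarith)
      have h8 := psi_lower ha hal hl z
      calc a * (mm al l x + mm al l d) ≤ a * (mm al l z + 2 ^ al * mm al l z) :=
            mul_le_mul_of_nonneg_left (by linarith) ha.le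
        _ = (1 + 2 ^ al) * (a * mm al l z) := by ring
        _ ≤ (1 + 2 ^ al) * (psi a al l z + psi a al l x) :=
            mul_le_mul_of_nonneg_left (by linarith) (by linarith)
    · have h7 : mm al l d ≤ 2 ^ al * mm al l x := mm_sc hal hl (by norm_num) (by linarith)
      have h8 := psi_lower ha hal hl x
      calc a * (mm al l x + mm al l d) ≤ a * (mm al l x + 2 ^ al * mm al l x) :=
            mul_le_mul_of_nonneg_left (by linarith) ha.le
        _ = (1 + 2 ^ al) * (a * mm al l x) := by ring
        _ ≤ (1 + 2 ^ al) * (psi a al l z + psi a al l x) :=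
            mul_le_mul_of_nonneg_left (by linarith) (by linarith)
  refine le_trans ?_ h1
  have h9 : (0 : ℝ) < 1 + 2 ^ al := by positivity
  apply mul_le_mul_of_nonneg_right _ (sq_nonneg _)
  rw [div_mul_eq_mul_div, div_le_iff₀ (by positivity)]
  linarith

/-- Row COE. -/
theorem coe : CoeStmt := by
  intro a al ha hal
  refine ⟨a / (2 * (1 + 2 ^ al)), by positivity, ?_⟩
  intro l x d hl
  exact coe' ha hal hl x d

end Pool.Agent.BEL.H61
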