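import Mathlib

/-!
# Squad BEL (MP_be01ff_an): the absorption inequality for `|s| ^ α * s`
-/

set_option autoImplicit false

namespace Pool.Agent.BEL.H61

/-- the nonlinearity with `a = 1` -/
noncomputable def G (α s : ℝ) : ℝ := |s| ^ α * s

theorem G_neg (α s : ℝ) : G α (-s) = - G α s := by
  unfold G
  rw [abs_neg]
  ring

theorem G_of_nonneg {α s : ℝ} (hα : 0 < α) (hs : 0 ≤ s) : G α s = s ^ (α + 1) := by
  unfold G
  rw [abs_of_nonneg hs, Real.rpow_add_one' hs (by linarith)]

theorem abs_G {α s : ℝ} (hα : 0 < α) : |G α s| = |s| ^ (α + 1) := by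
  unfold G
  rw [abs_mul, abs_of_nonneg (Real.rpow_nonneg (abs_nonneg s) α),
    Real.rpow_add_one' (abs_nonneg s) (by linarith)]

/-- strong monotonicity -/
theorem mono {α : ℝ} (hα : 0 < α) (x d : ℝ) :
    (1 / 2) * (1 / 3) ^ α * ((|x| + |d|) ^ α * d ^ 2) ≤ (G α (x + d) - G α x) * d := by
  set z := x + d with hz
  have hd : d = z - x := by rw [hz]; ring
  have hA := Real.rpow_nonneg (abs_nonneg z) α
  have hB := Real.rpow_nonneg (abs_nonneg x) α
  have h1 : (1 / 2) * (|z| ^ α + |x| ^ α) * d ^ 2 ≤ (G α z - G α x) * d := by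
    have h2 : 0 ≤ (|z| ^ α - |x| ^ α) * (z ^ 2 - x ^ 2) := by
      rcases le_total |x| |z| with h | h
      · have h3 : |x| ^ α ≤ |z| ^ α := Real.rpow_le_rpow (abs_nonneg x) h hα.le
        have h4 : x ^ 2 ≤ z ^ 2 := sq_le_sq.2 h
        exact mul_nonneg (by linarith) (by linarith)
      · have h3 : |z| ^ α ≤ |x| ^ α := Real.rpow_le_rpow (abs_nonneg z) h hα.le
        have h4 : z ^ 2 ≤ x ^ 2 := sq_le_sq.2 h
        exact mul_nonneg_of_nonpos_of_nonpos (by linarith) (by linarith)
    unfold G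
    rw [hd]
    nlinarith
  have h5 : (|x| + |d|) ^ α ≤ 3 ^ α * (|z| ^ α + |x| ^ α) := by
    have h6 : |x| + |d| ≤ 3 * max |z| |x| := by
      have h7 : |d| ≤ |z| + |x| := by
        rw [hd]
        exact abs_sub _ _
      have h8 := le_max_left |z| |x|
      have h9 := le_max_right |z| |x|
      linarith
    have h10 : 0 ≤ max |z| |x| := le_trans (abs_nonneg z) (le_max_left _ _)
    calc (|x| + |d|) ^ α ≤ (3 * max |z| |x|) ^ α :=
          Real.rpow_le_rpow (by positivity) h6 hα.le
      _ = 3 ^ α * (max |z| |x|) ^ α := Real.mul_rpow (by norm_num) h10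
      _ ≤ 3 ^ α * (|z| ^ α + |x| ^ α) := by
          apply mul_le_mul_of_nonneg_left _ (by positivity)
          rcases max_cases |z| |x| with ⟨h, _⟩ | ⟨h, _⟩
          · rw [h]
            linarith
          · rw [h]
            linarith
  have h11 : (1 / 3 : ℝ) ^ α * 3 ^ α = 1 := by
    rw [← Real.mul_rpow (by norm_num) (by norm_num)]
    norm_num
  have h12 : 0 < (1 / 3 : ℝ) ^ α := by positivity
  calc (1 / 2) * (1 / 3) ^ α * ((|x| + |d|) ^ α * d ^ 2)
      ≤ (1 / 2) * (1 / 3) ^ α * ((3 ^ α * (|z| ^ α + |x| ^ α)) * d ^ 2) := by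
        apply mul_le_mul_of_nonneg_left _ (by positivity)
        exact mul_le_mul_of_nonneg_right h5 (sq_nonneg _)
    _ = (1 / 2) * ((1 / 3 : ℝ) ^ α * 3 ^ α) * (|z| ^ α + |x| ^ α) * d ^ 2 := by ring
    _ = (1 / 2) * (|z| ^ α + |x| ^ α) * d ^ 2 := by rw [h11]; ring
    _ ≤ _ := h1

/-- `(1+t)^α - 1` -/
theorem lip1 {α : ℝ} (hα : 0 < α) {t : ℝ} (ht : |t| ≤ 1 / 2) :
    |(1 + t) ^ α - 1| ≤ α * 2 ^ (α + 1) * |t| := by
  have hconv : Convex ℝ (Set.Icc (-(1 / 2) : ℝ) (1 / 2)) := convex_Icc _ _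
  have h0 : (0 : ℝ) ∈ Set.Icc (-(1 / 2) : ℝ) (1 / 2) := by constructor <;> norm_num
  have ht' : t ∈ Set.Icc (-(1 / 2) : ℝ) (1 / 2) := by
    rw [abs_le] at ht
    exact ht
  have hder : ∀ s ∈ Set.Icc (-(1 / 2) : ℝ) (1 / 2),
      HasDerivWithinAt (fun s : ℝ => (1 + s) ^ α) (α * (1 + s) ^ (α - 1))
        (Set.Icc (-(1 / 2) : ℝ) (1 / 2)) s := by
    intro s hs
    have h1 : (1 : ℝ) + s ≠ 0 := by
      have := hs.1
      linarith
    have h2 := ((hasDerivAt_id s).const_add 1).rpow_const (p := α) (Or.inl h1)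
    have h3 : HasDerivAt (fun s : ℝ => (1 + s) ^ α) (α * (1 + s) ^ (α - 1)) s := by
      have h4 : (1 : ℝ) * α * (1 + id s) ^ (α - 1) = α * (1 + s) ^ (α - 1) := by
        simp
      rw [← h4]
      exact h2
    exact h3.hasDerivWithinAt
  have hbd : ∀ s ∈ Set.Icc (-(1 / 2) : ℝ) (1 / 2), ‖α * (1 + s) ^ (α - 1)‖ ≤ α * 2 ^ (α + 1) := by
    intro s hs
    have h1 : 0 < 1 + s := by
      have := hs.1
      linarith
    rw [Real.norm_eq_abs, abs_mul, abs_of_pos hα, abs_of_nonneg (Real.rpow_nonneg h1.le _)]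
    apply mul_le_mul_of_nonneg_left _ hα.le
    rcases le_total 1 α with h | h
    · calc (1 + s) ^ (α - 1) ≤ 2 ^ (α - 1) := by
            apply Real.rpow_le_rpow h1.le _ (by linarith)
            have := hs.2
            linarith
        _ ≤ 2 ^ (α + 1) := Real.rpow_le_rpow_of_exponent_le (by norm_num) (by linarith)
    · calc (1 + s) ^ (α - 1) ≤ (1 / 2) ^ (α - 1) := by
            apply Real.rpow_le_rpow_of_nonpos (by norm_num) _ (by linarith)
            have := hs.1
            linarith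
        _ = 2 ^ (1 - α) := by
            rw [one_div, Real.inv_rpow (by norm_num), ← Real.rpow_neg (by norm_num)]
            congr 1
            ring
        _ ≤ 2 ^ (α + 1) := Real.rpow_le_rpow_of_exponent_le (by norm_num) (by linarith)
  have h := hconv.norm_image_sub_le_of_norm_hasDerivWithin_le hder hbd h0 ht'
  simp only [add_zero, Real.one_rpow, sub_zero, Real.norm_eq_abs] at h
  exact h

/-- second order Taylor estimate at `1` -/
theorem taylor1 {α : ℝ} (hα : 0 < α) {t : ℝ} (ht : |t| ≤ 1 / 2) :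
    |(1 + t) ^ (α + 1) - 1 - (α + 1) * t| ≤ (α + 1) * (α * 2 ^ (α + 1)) * t ^ 2 := by
  have hconv : Convex ℝ (Set.Icc (-|t|) |t|) := convex_Icc _ _
  have h0 : (0 : ℝ) ∈ Set.Icc (-|t|) |t| := by
    have := abs_nonneg t
    constructor <;> linarith
  have ht' : t ∈ Set.Icc (-|t|) |t| := ⟨neg_abs_le t, le_abs_self t⟩
  have hder : ∀ s ∈ Set.Icc (-|t|) |t|,
      HasDerivWithinAt (fun s : ℝ => (1 + s) ^ (α + 1) - (α + 1) * s)
        ((α + 1) * ((1 + s) ^ α - 1)) (Set.Icc (-|t|) |t|) s := by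
    intro s hs
    have h1 : (1 : ℝ) + s ≠ 0 := by
      have := hs.1
      linarith
    have h2 := ((hasDerivAt_id s).const_add 1).rpow_const (p := α + 1) (Or.inl h1)
    have h5 := h2.sub ((hasDerivAt_id s).const_mul (α + 1))
    have h4 : (1 : ℝ) * (α + 1) * (1 + id s) ^ (α + 1 - 1) - (α + 1) * 1 =
        (α + 1) * ((1 + s) ^ α - 1) := by
      rw [add_sub_cancel_right]
      simp only [id]
      ring
    rw [h4] at h5
    exact h5.hasDerivWithinAt
  have hbd : ∀ s ∈ Set.Icc (-|t|) |t|, ‖(α + 1) * ((1 + s) ^ α - 1)‖ ≤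
      (α + 1) * (α * 2 ^ (α + 1) * |t|) := by
    intro s hs
    have h1 : |s| ≤ |t| := abs_le.2 hs
    rw [Real.norm_eq_abs, abs_mul, abs_of_pos (by linarith : 0 < α + 1)]
    apply mul_le_mul_of_nonneg_left _ (by linarith)
    refine le_trans (lip1 hα (le_trans h1 ht)) ?_
    exact mul_le_mul_of_nonneg_left h1 (by positivity)
  have h := hconv.norm_image_sub_le_of_norm_hasDerivWithin_le hder hbd h0 ht'
  simp only [add_zero, Real.one_rpow, sub_zero, mul_zero, Real.norm_eq_abs] at h
  have h3 : (1 + t) ^ (α + 1) - 1 - (α + 1) * t = (1 + t) ^ (α + 1) - (α + 1) * t - 1 := by ring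
  rw [h3]
  refine le_trans h (le_of_eq ?_)
  rw [← sq_abs t]
  ring

/-- second order Taylor estimate of `G` -/
theorem taylorG {α : ℝ} (hα : 0 < α) {v y : ℝ} (hvy : 2 * |y| < |v|) :
    |G α (v + y) - G α v - (α + 1) * |v| ^ α * y| ≤
      (α + 1) * (α * 2 ^ (α + 1)) * (|v| ^ (α - 1) * y ^ 2) := by
  have key : ∀ v y : ℝ, 0 < v → 2 * |y| < v →
      |G α (v + y) - G α v - (α + 1) * |v| ^ α * y| ≤
      (α + 1) * (α * 2 ^ (α + 1)) * (|v| ^ (α - 1) * y ^ 2) := by
    intro v y hv hy
    have ht : |y / v| ≤ 1 / 2 := by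
      rw [abs_div, abs_of_pos hv, div_le_iff₀ hv]
      linarith
    have h1 := taylor1 hα ht
    have hvy0 : 0 ≤ v + y := by
      have := neg_abs_le y
      linarith [abs_nonneg y]
    have h2 : v + y = v * (1 + y / v) := by field_simp
    have h3 : 0 ≤ 1 + y / v := by
      rw [abs_le] at ht
      linarith [ht.1]
    have h4 : G α (v + y) = v ^ (α + 1) * (1 + y / v) ^ (α + 1) := by
      rw [G_of_nonneg hα hvy0, h2, Real.mul_rpow hv.le h3]
    have h5 : G α v = v ^ (α + 1) := G_of_nonneg hα hv.le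
    have h6 : v ^ (α + 1) = v ^ α * v := Real.rpow_add_one hv.ne' α
    have h7 : v ^ α = v ^ (α - 1) * v := by
      rw [← Real.rpow_add_one hv.ne']
      congr 1
      ring
    have h8 : G α (v + y) - G α v - (α + 1) * |v| ^ α * y =
        v ^ (α + 1) * ((1 + y / v) ^ (α + 1) - 1 - (α + 1) * (y / v)) := by
      rw [h4, h5, abs_of_pos hv, h6]
      field_simp
    rw [h8, abs_mul, abs_of_nonneg (Real.rpow_nonneg hv.le _), abs_of_pos hv]
    have h9 : (0 : ℝ) ≤ v ^ (α + 1) := Real.rpow_nonneg hv.le _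
    refine le_trans (mul_le_mul_of_nonneg_left h1 h9) (le_of_eq ?_)
    rw [h6, h7]
    field_simp
  rcases lt_trichotomy v 0 with hv | hv | hv
  · have h1 := key (-v) (-y) (by linarith) (by rw [abs_neg]; rwa [abs_of_neg hv] at hvy)
    have h2 : -v + -y = -(v + y) := by ring
    rw [h2, G_neg, G_neg, abs_neg] at h1
    have h3 : -G α (v + y) - -G α v - (α + 1) * |v| ^ α * -y =
        -(G α (v + y) - G α v - (α + 1) * |v| ^ α * y) := by ring
    rw [h3, abs_neg, neg_sq] at h1
    exact h1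
  · rw [hv, abs_zero] at hvy
    have := abs_nonneg y
    linarith
  · rw [abs_of_pos hv] at hvy
    exact key v y hv hvy

/-- The absorption inequality. -/
theorem absorb {α : ℝ} (hα : 0 < α) : ∃ C : ℝ, 0 < C ∧ ∀ v y d M : ℝ, 0 ≤ M →
    -(C * (|y| ^ (α + 2) + (if 2 < α then |v| ^ (α - 2) * y ^ 4 else 0) +
      max ((α + 1) * |v| ^ α - M) 0 * y ^ 2)) ≤
      (G α (v + y + d) - G α v - min ((α + 1) * |v| ^ α) M * y) * d := by
  set c : ℝ := (1 / 2) * (1 / 3) ^ α with hc
  have hc0 : 0 < c := by positivity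
  set K1 : ℝ := 3 ^ (α + 1) + 2 ^ (α + 1) + (α + 1) * 2 ^ α with hK1
  have hK10 : 0 < K1 := by positivity
  set K2 : ℝ := 1 + K1 / c with hK2
  have hK21 : 1 ≤ K2 := by
    have : 0 < K1 / c := by positivity
    linarith
  set K3 : ℝ := (α + 1) * (α * 2 ^ (α + 1)) with hK3
  have hK30 : 0 < K3 := by positivity
  set c' : ℝ := c * (1 / 2) ^ α with hc'
  have hc'0 : 0 < c' := by positivity
  set C1 : ℝ := K1 * K2 with hC1
  set C2 : ℝ := K3 ^ 2 / (2 * c') with hC2
  set C3 : ℝ := (α + 1) / (2 * c') with hC3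
  have hC10 : 0 < C1 := by positivity
  have hC20 : 0 < C2 := by positivity
  have hC30 : 0 < C3 := by positivity
  refine ⟨C1 + C2 + C3, by positivity, ?_⟩
  intro v y d M hM
  set q : ℝ := (α + 1) * |v| ^ α with hq
  have hva : 0 ≤ |v| ^ α := Real.rpow_nonneg (abs_nonneg v) α
  have hq0 : 0 ≤ q := by positivity
  have hmin0 : 0 ≤ min q M := le_min hq0 hM
  have hminq : min q M ≤ q := min_le_left _ _
  have he0 : 0 ≤ max (q - M) 0 := le_max_right _ _
  have heq : q - min q M = max (q - M) 0 := by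
    rcases le_total q M with h | h
    · rw [min_eq_left h, max_eq_right (by linarith)]
      ring
    · rw [min_eq_right h, max_eq_left (by linarith)]
  have hY : 0 ≤ |y| ^ (α + 2) := Real.rpow_nonneg (abs_nonneg y) _
  have hψ : 0 ≤ (if 2 < α then |v| ^ (α - 2) * y ^ 4 else 0) := by
    split_ifs
    · have := Real.rpow_nonneg (abs_nonneg v) (α - 2)
      positivity
    · exact le_rfl
  have hm := mono hα (v + y) d
  rw [← hc] at hm
  have hsplit : (G α (v + y + d) - G α v - min q M * y) * d =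
      (G α (v + y + d) - G α (v + y)) * d + (G α (v + y) - G α v - min q M * y) * d := by ring
  rw [hsplit]
  rcases le_or_gt |v| (2 * |y|) with hv | hv
  · -- case A
    have h1 : |v + y| ≤ 3 * |y| := le_trans (abs_add_le v y) (by linarith)
    have h2 : |G α (v + y)| ≤ 3 ^ (α + 1) * |y| ^ (α + 1) := by
      rw [abs_G hα, ← Real.mul_rpow (by norm_num) (abs_nonneg y)]
      exact Real.rpow_le_rpow (abs_nonneg _) h1 (by linarith)
    have h3 : |G α v| ≤ 2 ^ (α + 1) * |y| ^ (α + 1) := by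
      rw [abs_G hα, ← Real.mul_rpow (by norm_num) (abs_nonneg y)]
      exact Real.rpow_le_rpow (abs_nonneg _) hv (by linarith)
    have h4 : |min q M * y| ≤ (α + 1) * 2 ^ α * |y| ^ (α + 1) := by
      rw [abs_mul, abs_of_nonneg hmin0]
      have h5 : |v| ^ α ≤ 2 ^ α * |y| ^ α := by
        rw [← Real.mul_rpow (by norm_num) (abs_nonneg y)]
        exact Real.rpow_le_rpow (abs_nonneg _) hv hα.le
      calc min q M * |y| ≤ q * |y| := mul_le_mul_of_nonneg_right hminq (abs_nonneg y)
        _ ≤ ((α + 1) * (2 ^ α * |y| ^ α)) * |y| := by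
            apply mul_le_mul_of_nonneg_right _ (abs_nonneg y)
            exact mul_le_mul_of_nonneg_left h5 (by linarith)
        _ = (α + 1) * 2 ^ α * (|y| ^ α * |y|) := by ring
        _ = (α + 1) * 2 ^ α * |y| ^ (α + 1) := by
            rw [← Real.rpow_add_one' (abs_nonneg y) (by linarith)]
    have h6 : |G α (v + y) - G α v - min q M * y| ≤ K1 * |y| ^ (α + 1) := by
      have h7 : |G α (v + y) - G α v - min q M * y| ≤
          |G α (v + y)| + |G α v| + |min q M * y| :=
        le_trans (abs_sub _ _) (by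
          have := abs_sub (G α (v + y)) (G α v)
          linarith)
      rw [hK1]
      linarith
    have h8 : -(K1 * |y| ^ (α + 1) * |d|) ≤ (G α (v + y) - G α v - min q M * y) * d := by
      have h9 := neg_abs_le ((G α (v + y) - G α v - min q M * y) * d)
      rw [abs_mul] at h9
      have h10 := mul_le_mul_of_nonneg_right h6 (abs_nonneg d)
      linarith
    have h11 : c * |d| ^ (α + 2) ≤ (G α (v + y + d) - G α (v + y)) * d := by
      refine le_trans ?_ hm
      apply mul_le_mul_of_nonneg_left _ hc0.le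
      have h12 : |d| ^ (α + 2) = |d| ^ α * d ^ 2 := by
        rw [← sq_abs d, ← Real.rpow_two, ← Real.rpow_add_of_nonneg (abs_nonneg d) hα.le (by norm_num)]
      rw [h12]
      apply mul_le_mul_of_nonneg_right _ (sq_nonneg _)
      exact Real.rpow_le_rpow (abs_nonneg d) (by linarith [abs_nonneg (v + y)]) hα.le
    have hY1 : 0 ≤ |y| ^ (α + 1) := Real.rpow_nonneg (abs_nonneg y) _
    have hgoal : -(C1 * |y| ^ (α + 2)) ≤
        (G α (v + y + d) - G α (v + y)) * d + (G α (v + y) - G α v - min q M * y) * d := by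
      rcases le_or_gt |d| (K2 * |y|) with hd | hd
      · have h13 : K1 * |y| ^ (α + 1) * |d| ≤ C1 * |y| ^ (α + 2) := by
          have h14 : |y| ^ (α + 2) = |y| ^ (α + 1) * |y| := by
            rw [← Real.rpow_add_one' (abs_nonneg y) (by linarith)]
            congr 1
            ring
          rw [h14, hC1]
          calc K1 * |y| ^ (α + 1) * |d| ≤ K1 * |y| ^ (α + 1) * (K2 * |y|) :=
                mul_le_mul_of_nonneg_left hd (by positivity)
            _ = _ := by ring
        have h15 : 0 ≤ c * |d| ^ (α + 2) := by positivity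
        linarith
      · have h16 : K1 * |y| ^ (α + 1) * |d| ≤ c * |d| ^ (α + 2) := by
          have h17 : |d| ^ (α + 2) = |d| ^ (α + 1) * |d| := by
            rw [← Real.rpow_add_one' (abs_nonneg d) (by linarith)]
            congr 1
            ring
          rw [h17, ← mul_assoc]
          apply mul_le_mul_of_nonneg_right _ (abs_nonneg d)
          have h18 : (K2 * |y|) ^ (α + 1) ≤ |d| ^ (α + 1) :=
            Real.rpow_le_rpow (by positivity) hd.le (by linarith)
          rw [Real.mul_rpow (by linarith) (abs_nonneg y)] at h18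
          have h19 : K2 ≤ K2 ^ (α + 1) := by
            calc K2 = K2 ^ (1 : ℝ) := (Real.rpow_one _).symm
              _ ≤ K2 ^ (α + 1) := Real.rpow_le_rpow_of_exponent_le hK21 (by linarith)
          have h20 : K1 ≤ c * K2 := by
            have h21 : c * (K1 / c) = K1 := by field_simp
            have : c * K2 = c + K1 := by
              rw [hK2, mul_add, mul_one, h21]
            linarith
          calc K1 * |y| ^ (α + 1) ≤ c * K2 * |y| ^ (α + 1) :=
                mul_le_mul_of_nonneg_right h20 hY1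
            _ ≤ c * K2 ^ (α + 1) * |y| ^ (α + 1) :=
                mul_le_mul_of_nonneg_right (mul_le_mul_of_nonneg_left h19 hc0.le) hY1
            _ = c * (K2 ^ (α + 1) * |y| ^ (α + 1)) := by ring
            _ ≤ c * |d| ^ (α + 1) := mul_le_mul_of_nonneg_left h18 hc0.le
        have h22 : 0 ≤ C1 * |y| ^ (α + 2) := by positivity
        linarith
    refine le_trans ?_ hgoal
    have h23 : 0 ≤ max (q - M) 0 * y ^ 2 := by positivity
    have h24 : C1 * |y| ^ (α + 2) ≤ (C1 + C2 + C3) * (|y| ^ (α + 2) +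
        (if 2 < α then |v| ^ (α - 2) * y ^ 4 else 0) + max (q - M) 0 * y ^ 2) := by
      calc C1 * |y| ^ (α + 2) ≤ (C1 + C2 + C3) * |y| ^ (α + 2) :=
            mul_le_mul_of_nonneg_right (by linarith) hY
        _ ≤ _ := mul_le_mul_of_nonneg_left (by linarith) (by positivity)
    linarith
  · -- case B
    have hv0 : 0 < |v| := lt_of_le_of_lt (by positivity) hv
    have h1 := taylorG hα hv
    rw [← hK3] at h1
    have h2 : |v| / 2 ≤ |v + y| := by
      have h3 := abs_sub_abs_le_abs_sub v (-y)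
      rw [abs_neg, sub_neg_eq_add] at h3
      linarith
    have h4 : c' * (|v| ^ α * d ^ 2) ≤ (G α (v + y + d) - G α (v + y)) * d := by
      refine le_trans ?_ hm
      rw [hc', mul_assoc]
      apply mul_le_mul_of_nonneg_left _ hc0.le
      rw [← mul_assoc]
      apply mul_le_mul_of_nonneg_right _ (sq_nonneg _)
      rw [← Real.mul_rpow (by norm_num) (abs_nonneg v)]
      apply Real.rpow_le_rpow (by positivity) _ hα.le
      linarith [abs_nonneg d]
    set B : ℝ := |v| ^ (α - 2) * y ^ 4 with hB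
    have hB0 : 0 ≤ B := by
      have := Real.rpow_nonneg (abs_nonneg v) (α - 2)
      positivity
    have h5 : K3 * (|v| ^ (α - 1) * y ^ 2) * |d| ≤ c' / 2 * (|v| ^ α * d ^ 2) + C2 * B := by
      have h6 : |v| ^ (α - 1) = |v| ^ (α - 2) * |v| := by
        rw [← Real.rpow_add_one hv0.ne']
        congr 1
        ring
      have h7 : |v| ^ α = |v| ^ (α - 2) * |v| ^ 2 := by
        rw [← Real.rpow_two, ← Real.rpow_add hv0]
        congr 1
        ring
      have h8 : 0 ≤ |v| ^ (α - 2) := Real.rpow_nonneg (abs_nonneg v) _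
      rw [h6, h7, hB, hC2]
      have h9 : K3 * (|v| ^ (α - 2) * |v| * y ^ 2) * |d| =
          |v| ^ (α - 2) * (K3 * (|v| * |d|) * y ^ 2) := by ring
      have h10 : c' / 2 * (|v| ^ (α - 2) * |v| ^ 2 * d ^ 2) +
          K3 ^ 2 / (2 * c') * (|v| ^ (α - 2) * y ^ 4) =
          |v| ^ (α - 2) * (c' / 2 * (|v| * |d|) ^ 2 + K3 ^ 2 / (2 * c') * (y ^ 2) ^ 2) := by
        have h101 : (|v| * |d|) ^ 2 = |v| ^ 2 * d ^ 2 := by rw [mul_pow, sq_abs d]
        rw [h101]
        ring
      rw [h9, h10]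
      apply mul_le_mul_of_nonneg_left _ h8
      have h11 : 0 ≤ (c' * (|v| * |d|) - K3 * y ^ 2) ^ 2 / (2 * c') := by positivity
      have h12 : (c' * (|v| * |d|) - K3 * y ^ 2) ^ 2 / (2 * c') =
          c' / 2 * (|v| * |d|) ^ 2 + K3 ^ 2 / (2 * c') * (y ^ 2) ^ 2 -
            K3 * (|v| * |d|) * y ^ 2 := by
        field_simp
        ring
      linarith
    set e : ℝ := max (q - M) 0 with he
    have heq2 : e ≤ (α + 1) * |v| ^ α := by
      rw [← heq]
      linarith
    have h13 : e * |y| * |d| ≤ c' / 2 * (|v| ^ α * d ^ 2) + C3 * (e * y ^ 2) := by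
      have h14 : e * |y| * |d| ≤ c' / (2 * (α + 1)) * (e * d ^ 2) + C3 * (e * y ^ 2) := by
        rw [hC3]
        have h15 : 0 ≤ e * ((c' * |d| - (α + 1) * |y|) ^ 2 / (2 * (α + 1) * c')) := by positivity
        have h16 : e * ((c' * |d| - (α + 1) * |y|) ^ 2 / (2 * (α + 1) * c')) =
            c' / (2 * (α + 1)) * (e * |d| ^ 2) + (α + 1) / (2 * c') * (e * |y| ^ 2) -
              e * |y| * |d| := by
          field_simp
          ring
        rw [sq_abs, sq_abs] at h16
        linarith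
      have h17 : c' / (2 * (α + 1)) * (e * d ^ 2) ≤ c' / 2 * (|v| ^ α * d ^ 2) := by
        have h18 : c' / (2 * (α + 1)) * (e * d ^ 2) ≤
            c' / (2 * (α + 1)) * (((α + 1) * |v| ^ α) * d ^ 2) := by
          apply mul_le_mul_of_nonneg_left _ (by positivity)
          exact mul_le_mul_of_nonneg_right heq2 (sq_nonneg _)
        refine le_trans h18 (le_of_eq ?_)
        field_simp
      linarith
    have hR : G α (v + y) - G α v - min q M * y =
        (G α (v + y) - G α v - (α + 1) * |v| ^ α * y) + e * y := by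
      rw [← heq, hq]
      ring
    have h19 : -(K3 * (|v| ^ (α - 1) * y ^ 2) * |d| + e * |y| * |d|) ≤
        (G α (v + y) - G α v - min q M * y) * d := by
      rw [hR]
      have h20 := neg_abs_le (((G α (v + y) - G α v - (α + 1) * |v| ^ α * y) + e * y) * d)
      rw [abs_mul] at h20
      have h21 : |(G α (v + y) - G α v - (α + 1) * |v| ^ α * y) + e * y| ≤
          K3 * (|v| ^ (α - 1) * y ^ 2) + e * |y| := by
        refine le_trans (abs_add_le _ _) ?_
        rw [abs_mul, abs_of_nonneg he0]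
        linarith
      have h22 := mul_le_mul_of_nonneg_right h21 (abs_nonneg d)
      linarith
    have hgoal : -(C2 * B + C3 * (e * y ^ 2)) ≤
        (G α (v + y + d) - G α (v + y)) * d + (G α (v + y) - G α v - min q M * y) * d := by
      linarith
    refine le_trans ?_ hgoal
    have hBle : B ≤ |y| ^ (α + 2) + (if 2 < α then |v| ^ (α - 2) * y ^ 4 else 0) := by
      split_ifs with h
      · linarith
      · rw [add_zero, hB]
        rcases eq_or_ne y 0 with hy | hy
        · rw [hy]
          have : (0 : ℝ) ≤ |0| ^ (α + 2) := Real.rpow_nonneg (abs_nonneg _) _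
          simpa using this
        · have hy0 : 0 < |y| := abs_pos.2 hy
          have h23 : |v| ^ (α - 2) ≤ |y| ^ (α - 2) :=
            Real.rpow_le_rpow_of_nonpos hy0 (by linarith) (by linarith)
          have h24 : |y| ^ (α + 2) = |y| ^ (α - 2) * y ^ 4 := by
            have h25 : y ^ 4 = |y| ^ (4 : ℝ) := by
              have : y ^ 4 = |y| ^ 4 := by
                have h26 : y ^ 4 = (y ^ 2) ^ 2 := by ring
                rw [h26, ← sq_abs y]
                ring
              rw [this]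
              exact (Real.rpow_natCast |y| 4).symm
            rw [h25, ← Real.rpow_add hy0]
            congr 1
            ring
          rw [h24]
          apply mul_le_mul_of_nonneg_right h23 (by positivity)
    have hey : 0 ≤ e * y ^ 2 := by positivity
    have hS : 0 ≤ |y| ^ (α + 2) + (if 2 < α then |v| ^ (α - 2) * y ^ 4 else 0) := by linarith
    have h27 : C2 * B + C3 * (e * y ^ 2) ≤ (C1 + C2 + C3) * (|y| ^ (α + 2) +
        (if 2 < α then |v| ^ (α - 2) * y ^ 4 else 0) + e * y ^ 2) := by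
      have h28 : C2 * B ≤ C2 * (|y| ^ (α + 2) + (if 2 < α then |v| ^ (α - 2) * y ^ 4 else 0)) :=
        mul_le_mul_of_nonneg_left hBle hC20.le
      have h29 : 0 ≤ (C1 + C3) * (|y| ^ (α + 2) + (if 2 < α then |v| ^ (α - 2) * y ^ 4 else 0)) :=
        mul_nonneg (by positivity) hS
      have h30 : 0 ≤ (C1 + C2) * (e * y ^ 2) := mul_nonneg (by positivity) hey
      nlinarith
    linarith

/-- The absorption inequality for `g s = a |s|^α s`. -/
theorem absorb' {a α : ℝ} (ha : 0 < a) (hα : 0 < α) : ∃ C : ℝ, 0 < C ∧ ∀ v y d M : ℝ, 0 ≤ M →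
    -(C * (|y| ^ (α + 2) + (if 2 < α then |v| ^ (α - 2) * y ^ 4 else 0) +
      max (a * (α + 1) * |v| ^ α - M) 0 * y ^ 2)) ≤
      (a * |v + y + d| ^ α * (v + y + d) - a * |v| ^ α * v -
        min (a * (α + 1) * |v| ^ α) M * y) * d := by
  obtain ⟨C, hC, h⟩ := absorb hα
  refine ⟨a * C + C, by positivity, ?_⟩
  intro v y d M hM
  have h1 := h v y d (M / a) (by positivity)
  have h2 : a * min ((α + 1) * |v| ^ α) (M / a) = min (a * (α + 1) * |v| ^ α) M := by
    rw [mul_min_of_nonneg _ _ ha.le]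
    congr 1
    · ring
    · field_simp
  have h3 : a * max ((α + 1) * |v| ^ α - M / a) 0 = max (a * (α + 1) * |v| ^ α - M) 0 := by
    rw [mul_max_of_nonneg _ _ ha.le]
    congr 1
    · field_simp
    · ring
  have hψ : 0 ≤ (if 2 < α then |v| ^ (α - 2) * y ^ 4 else 0) := by
    split_ifs
    · have := Real.rpow_nonneg (abs_nonneg v) (α - 2)
      positivity
    · exact le_rfl
  have hY : 0 ≤ |y| ^ (α + 2) := Real.rpow_nonneg (abs_nonneg y) _
  have hm : 0 ≤ max (a * (α + 1) * |v| ^ α - M) 0 * y ^ 2 := by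
    have := le_max_right (a * (α + 1) * |v| ^ α - M) 0
    positivity
  have h4 := mul_le_mul_of_nonneg_left h1 ha.le
  have h5 : a * ((G α (v + y + d) - G α v - min ((α + 1) * |v| ^ α) (M / a) * y) * d) =
      (a * |v + y + d| ^ α * (v + y + d) - a * |v| ^ α * v -
        min (a * (α + 1) * |v| ^ α) M * y) * d := by
    rw [← h2]
    unfold G
    ring
  rw [h5] at h4
  refine le_trans ?_ h4
  have h6 : a * -(C * (|y| ^ (α + 2) + (if 2 < α then |v| ^ (α - 2) * y ^ 4 else 0) +
      max ((α + 1) * |v| ^ α - M / a) 0 * y ^ 2)) =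
      -(a * C * (|y| ^ (α + 2) + (if 2 < α then |v| ^ (α - 2) * y ^ 4 else 0)) +
      C * (max (a * (α + 1) * |v| ^ α - M) 0 * y ^ 2)) := by
    rw [← h3]
    ring
  rw [h6]
  have h7 : 0 ≤ C * (|y| ^ (α + 2) + (if 2 < α then |v| ^ (α - 2) * y ^ 4 else 0)) :=
    mul_nonneg hC.le (by linarith)
  have h8 : 0 ≤ a * C * (max (a * (α + 1) * |v| ^ α - M) 0 * y ^ 2) := by positivity
  linarith

end Pool.Agent.BEL.H61
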