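import Pool.Agent.Helper61_BEL.COE
import Pool.Agent.Helper61_BEL.Abs

/-!
# Squad BEL, row PWI: the pointwise inequality, uniform in the truncation
-/

set_option autoImplicit false

namespace Pool.Agent.BEL.H61

open MeasureTheory Set

theorem mm_neg (al l s : ℝ) : mm al l (-s) = mm al l s := by
  unfold mm
  rw [abs_neg]

theorem ql_neg (a al l s : ℝ) : ql a al l (-s) = ql a al l s := by
  unfold ql
  rw [mm_neg]

theorem gl_neg (a al l s : ℝ) : gl a al l (-s) = - gl a al l s := by
  have h1 : psi a al l (-s) = psi a al l s := by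
    unfold psi
    congr 1
    funext u
    rw [neg_mul, ql_neg]
  rw [gl_psi, gl_psi, h1]
  ring

/-- the ratio of the truncations -/
theorem ratio {l v r : ℝ} (hl : 0 < l) (hv : 0 < v) (hr : 0 < r) :
    ∃ t : ℝ, min r l = min v l * (1 + t) ∧ |t| ≤ |r - v| / v := by
  rcases le_total v l with h1 | h1
  · rw [min_eq_left h1]
    rcases le_total r l with h2 | h2
    · rw [min_eq_left h2]
      refine ⟨(r - v) / v, ?_, ?_⟩
      · field_simp
        ring
      · rw [abs_div, abs_of_pos hv]
    · rw [min_eq_right h2]
      refine ⟨(l - v) / v, ?_, ?_⟩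
      · field_simp
        ring
      · rw [abs_div, abs_of_pos hv]
        apply div_le_div_of_nonneg_right _ hv.le
        rw [abs_of_nonneg (by linarith), abs_of_nonneg (by linarith)]
        linarith
  · rw [min_eq_right h1]
    rcases le_total r l with h2 | h2
    · rw [min_eq_left h2]
      refine ⟨(r - l) / l, ?_, ?_⟩
      · field_simp
        ring
      · rw [abs_div, abs_of_pos hl, abs_of_nonpos (by linarith), abs_of_nonpos (by linarith)]
        rw [div_le_div_iff₀ hl hv]
        nlinarith
    · rw [min_eq_right h2]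
      refine ⟨0, by ring, ?_⟩
      rw [abs_zero]
      positivity

theorem mm_lip {al l v r : ℝ} (hal : 0 < al) (hl : 0 < l) (hv : 0 < v)
    (h : |r - v| ≤ v / 2) :
    |mm al l r - mm al l v| ≤ al * 2 ^ (al + 1) * (mm al l v * (|r - v| / v)) := by
  have hr : 0 < r := by
    rw [abs_le] at h
    linarith [h.1]
  obtain ⟨t, ht1, ht2⟩ := ratio (l := l) hl hv hr
  have ht3 : |t| ≤ 1 / 2 := by
    refine le_trans ht2 ?_
    rw [div_le_iff₀ hv]
    linarith
  have hm : 0 < min v l := lt_min hv hl
  have ht4 : 0 ≤ 1 + t := by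
    rw [abs_le] at ht3
    linarith [ht3.1]
  have h1 : mm al l r = mm al l v * (1 + t) ^ al := by
    unfold mm
    rw [abs_of_pos hr, abs_of_pos hv, ht1, Real.mul_rpow hm.le ht4]
  have h2 : mm al l r - mm al l v = mm al l v * ((1 + t) ^ al - 1) := by
    rw [h1]
    ring
  have h3 := mm_nn (al := al) hl v
  rw [h2, abs_mul, abs_of_nonneg h3]
  calc mm al l v * |(1 + t) ^ al - 1| ≤ mm al l v * (al * 2 ^ (al + 1) * |t|) :=
        mul_le_mul_of_nonneg_left (lip1 hal ht3) h3
    _ ≤ mm al l v * (al * 2 ^ (al + 1) * (|r - v| / v)) := by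
        apply mul_le_mul_of_nonneg_left _ h3
        exact mul_le_mul_of_nonneg_left ht2 (by positivity)
    _ = _ := by ring

/-- second order Taylor estimate -/
theorem taylor_gl {a al l v y : ℝ} (ha : 0 < a) (hal : 0 < al) (hl : 0 < l)
    (h : 2 * |y| < |v|) :
    |gl a al l (v + y) - gl a al l v - ql a al l v * y| ≤
      a * (al + 1) * (al * 2 ^ (al + 1)) * (mm al l v * (y ^ 2 / |v|)) := by
  have key : ∀ v y : ℝ, 0 < v → 2 * |y| < v →
      |gl a al l (v + y) - gl a al l v - ql a al l v * y| ≤
      a * (al + 1) * (al * 2 ^ (al + 1)) * (mm al l v * (y ^ 2 / v)) := by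
    intro v y hv hy
    have hint : ∀ p q : ℝ, IntervalIntegrable (ql a al l) volume p q := fun p q =>
      (ql_cont a hal l).intervalIntegrable p q
    have h1 : gl a al l (v + y) - gl a al l v = ∫ r in v..(v + y), ql a al l r := by
      unfold gl
      exact intervalIntegral.integral_interval_sub_left (hint _ _) (hint _ _)
    have h2 : ∫ r in v..(v + y), ql a al l v = ql a al l v * y := by
      rw [intervalIntegral.integral_const, smul_eq_mul]
      ring
    have h3 : gl a al l (v + y) - gl a al l v - ql a al l v * y =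
        ∫ r in v..(v + y), (ql a al l r - ql a al l v) := by
      rw [intervalIntegral.integral_sub (hint _ _) (continuous_const.intervalIntegrable _ _),
        h1, h2]
    have h4 : ∀ r ∈ Set.uIoc v (v + y), ‖ql a al l r - ql a al l v‖ ≤
        a * (al + 1) * (al * 2 ^ (al + 1)) * (mm al l v * (|y| / v)) := by
      intro r hr
      have hr2 : |r - v| ≤ |y| := by
        have h5 : r ∈ Set.uIcc v (v + y) := Set.uIoc_subset_uIcc hr
        have h6 := Set.abs_sub_left_of_mem_uIcc h5
        have h7 : v + y - v = y := by ring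
        rw [h7] at h6
        exact h6
      have h8 : |r - v| ≤ v / 2 := by linarith
      have h9 := mm_lip hal hl hv h8
      have h10 : ql a al l r - ql a al l v = a * (al + 1) * (mm al l r - mm al l v) := by
        unfold ql
        ring
      rw [h10, Real.norm_eq_abs, abs_mul, abs_of_pos (by positivity : 0 < a * (al + 1))]
      have h11 : al * 2 ^ (al + 1) * (mm al l v * (|r - v| / v)) ≤
          al * 2 ^ (al + 1) * (mm al l v * (|y| / v)) := by
        apply mul_le_mul_of_nonneg_left _ (by positivity)
        apply mul_le_mul_of_nonneg_left _ (mm_nn hl v)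
        exact div_le_div_of_nonneg_right hr2 hv.le
      calc a * (al + 1) * |mm al l r - mm al l v|
          ≤ a * (al + 1) * (al * 2 ^ (al + 1) * (mm al l v * (|y| / v))) :=
            mul_le_mul_of_nonneg_left (le_trans h9 h11) (by positivity)
        _ = _ := by ring
    have h12 := intervalIntegral.norm_integral_le_of_norm_le_const h4
    rw [← h3, Real.norm_eq_abs] at h12
    refine le_trans h12 (le_of_eq ?_)
    have h13 : v + y - v = y := by ring
    rw [h13]
    have h14 : |y| * |y| = y ^ 2 := by
      rw [← sq, sq_abs]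
    calc a * (al + 1) * (al * 2 ^ (al + 1)) * (mm al l v * (|y| / v)) * |y| =
        a * (al + 1) * (al * 2 ^ (al + 1)) * (mm al l v * ((|y| * |y|) / v)) := by ring
      _ = _ := by rw [h14]
  rcases lt_trichotomy v 0 with hv | hv | hv
  · have h1 := key (-v) (-y) (by linarith) (by rw [abs_neg]; rwa [abs_of_neg hv] at h)
    have h2 : -v + -y = -(v + y) := by ring
    rw [h2, gl_neg, gl_neg, ql_neg, mm_neg] at h1
    have h3 : -gl a al l (v + y) - -gl a al l v - ql a al l v * -y =
        -(gl a al l (v + y) - gl a al l v - ql a al l v * y) := by ring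
    rw [h3, abs_neg, neg_sq] at h1
    rw [abs_of_neg hv]
    exact h1
  · rw [hv, abs_zero] at h
    have := abs_nonneg y
    linarith
  · rw [abs_of_pos hv] at h ⊢
    exact key v y hv h

/-- The absorption inequality, uniform in the truncation. -/
theorem absorb_gl {a al : ℝ} (ha : 0 < a) (hal : 0 < al) : ∃ C : ℝ, 0 < C ∧
    ∀ l v y d M : ℝ, 0 < l → 0 ≤ M →
    -(C * (|y| ^ (al + 2) + (if 2 < al then mm (al - 2) l v * y ^ 4 else 0) +
      max (ql a al l v - M) 0 * y ^ 2)) ≤
      (gl a al l (v + y + d) - gl a al l v - min (ql a al l v) M * y) * d := by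
  set c : ℝ := a / (2 * (1 + 2 ^ al)) with hc
  have hc0 : 0 < c := by positivity
  set b : ℝ := a * (al + 1) with hb
  have hb0 : 0 < b := by positivity
  set K1 : ℝ := b * (3 ^ al * 3 + 2 ^ al * 2 + 2 ^ al) with hK1
  have hK10 : 0 < K1 := by positivity
  set K2 : ℝ := 1 + K1 / c with hK2
  have hK21 : 1 ≤ K2 := by
    have : 0 < K1 / c := by positivity
    linarith
  set K3 : ℝ := b * (al * 2 ^ (al + 1)) with hK3
  have hK30 : 0 < K3 := by positivity
  set c' : ℝ := c / 2 ^ al with hc'
  have hc'0 : 0 < c' := by positivity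
  set C1 : ℝ := K1 * K2 with hC1
  set C2 : ℝ := K3 ^ 2 / (2 * c') with hC2
  set C3 : ℝ := b / (2 * c') with hC3
  have hC10 : 0 < C1 := by positivity
  have hC20 : 0 < C2 := by positivity
  have hC30 : 0 < C3 := by positivity
  refine ⟨C1 + C2 + C3, by positivity, ?_⟩
  intro l v y d M hl hM
  set q : ℝ := ql a al l v with hq
  have hqm : q = b * mm al l v := by
    rw [hq, hb]
    rfl
  have hmv : 0 ≤ mm al l v := mm_nn hl v
  have hmy : 0 ≤ mm al l y := mm_nn hl y
  have hmd : 0 ≤ mm al l d := mm_nn hl d
  have hq0 : 0 ≤ q := by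
    rw [hqm]
    positivity
  have hmin0 : 0 ≤ min q M := le_min hq0 hM
  have hminq : min q M ≤ q := min_le_left _ _
  have he0 : 0 ≤ max (q - M) 0 := le_max_right _ _
  have heq : q - min q M = max (q - M) 0 := by
    rcases le_total q M with h | h
    · rw [min_eq_left h, max_eq_right (by linarith)]
      ring
    · rw [min_eq_right h, max_eq_left (by linarith)]
  have hY : 0 ≤ |y| ^ (al + 2) := Real.rpow_nonneg (abs_nonneg y) _
  have hψ : 0 ≤ (if 2 < al then mm (al - 2) l v * y ^ 4 else 0) := by
    split_ifs
    · have := mm_nn (al := al - 2) hl v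
      positivity
    · exact le_rfl
  have hm := coe' ha hal hl (v + y) d
  rw [← hc] at hm
  have hsplit : (gl a al l (v + y + d) - gl a al l v - min q M * y) * d =
      (gl a al l (v + y + d) - gl a al l (v + y)) * d +
        (gl a al l (v + y) - gl a al l v - min q M * y) * d := by ring
  rw [hsplit]
  rcases le_or_gt |v| (2 * |y|) with hv | hv
  · -- case A
    have h1 : |v + y| ≤ 3 * |y| := le_trans (abs_add_le v y) (by linarith)
    have hy0 := abs_nonneg y
    have h2 : |gl a al l (v + y)| ≤ b * (3 ^ al * 3) * (mm al l y * |y|) := by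
      have h21 := abs_gl ha hal hl (v + y)
      have h22 : mm al l (v + y) ≤ 3 ^ al * mm al l y := mm_sc hal hl (by norm_num) h1
      have h23 : mm al l (v + y) * |v + y| ≤ (3 ^ al * mm al l y) * (3 * |y|) :=
        mul_le_mul h22 h1 (abs_nonneg _) (by positivity)
      calc |gl a al l (v + y)| ≤ b * (mm al l (v + y) * |v + y|) := by
            rw [← mul_assoc]
            exact h21
        _ ≤ b * ((3 ^ al * mm al l y) * (3 * |y|)) := mul_le_mul_of_nonneg_left h23 hb0.le
        _ = _ := by ring
    have hv2 : mm al l v ≤ 2 ^ al * mm al l y := mm_sc hal hl (by norm_num) hv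
    have h3 : |gl a al l v| ≤ b * (2 ^ al * 2) * (mm al l y * |y|) := by
      have h21 := abs_gl ha hal hl v
      have h23 : mm al l v * |v| ≤ (2 ^ al * mm al l y) * (2 * |y|) :=
        mul_le_mul hv2 hv (abs_nonneg _) (by positivity)
      calc |gl a al l v| ≤ b * (mm al l v * |v|) := by
            rw [← mul_assoc]
            exact h21
        _ ≤ b * ((2 ^ al * mm al l y) * (2 * |y|)) := mul_le_mul_of_nonneg_left h23 hb0.le
        _ = _ := by ring
    have h4 : |min q M * y| ≤ b * 2 ^ al * (mm al l y * |y|) := by
      rw [abs_mul, abs_of_nonneg hmin0]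
      calc min q M * |y| ≤ q * |y| := mul_le_mul_of_nonneg_right hminq (abs_nonneg y)
        _ ≤ (b * (2 ^ al * mm al l y)) * |y| := by
            apply mul_le_mul_of_nonneg_right _ (abs_nonneg y)
            rw [hqm]
            exact mul_le_mul_of_nonneg_left hv2 hb0.le
        _ = _ := by ring
    have h6 : |gl a al l (v + y) - gl a al l v - min q M * y| ≤ K1 * (mm al l y * |y|) := by
      have h7 : |gl a al l (v + y) - gl a al l v - min q M * y| ≤
          |gl a al l (v + y)| + |gl a al l v| + |min q M * y| :=
        le_trans (abs_sub _ _) (by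
          have := abs_sub (gl a al l (v + y)) (gl a al l v)
          linarith)
      have h8 : K1 * (mm al l y * |y|) = b * (3 ^ al * 3) * (mm al l y * |y|) +
          b * (2 ^ al * 2) * (mm al l y * |y|) + b * 2 ^ al * (mm al l y * |y|) := by
        rw [hK1]
        ring
      linarith
    have h8 : -(K1 * (mm al l y * |y|) * |d|) ≤
        (gl a al l (v + y) - gl a al l v - min q M * y) * d := by
      have h9 := neg_abs_le ((gl a al l (v + y) - gl a al l v - min q M * y) * d)
      rw [abs_mul] at h9
      have h10 := mul_le_mul_of_nonneg_right h6 (abs_nonneg d)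
      linarith
    have h11 : c * (mm al l d * d ^ 2) ≤ (gl a al l (v + y + d) - gl a al l (v + y)) * d := by
      refine le_trans ?_ hm
      have h12 : 0 ≤ c * mm al l (v + y) * d ^ 2 := by
        have := mm_nn (al := al) hl (v + y)
        positivity
      nlinarith
    have hyy : mm al l y * y ^ 2 ≤ |y| ^ (al + 2) := by
      have h12 : |y| ^ (al + 2) = |y| ^ al * y ^ 2 := by
        rw [← sq_abs y, ← Real.rpow_two,
          ← Real.rpow_add_of_nonneg (abs_nonneg y) hal.le (by norm_num)]
      rw [h12]
      apply mul_le_mul_of_nonneg_right _ (sq_nonneg _)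
      unfold mm
      exact Real.rpow_le_rpow (le_min (abs_nonneg y) hl.le) (min_le_left _ _) hal.le
    have hgoal : -(C1 * |y| ^ (al + 2)) ≤
        (gl a al l (v + y + d) - gl a al l (v + y)) * d +
          (gl a al l (v + y) - gl a al l v - min q M * y) * d := by
      rcases le_or_gt |d| (K2 * |y|) with hd | hd
      · have h13 : K1 * (mm al l y * |y|) * |d| ≤ C1 * |y| ^ (al + 2) := by
          calc K1 * (mm al l y * |y|) * |d| ≤ K1 * (mm al l y * |y|) * (K2 * |y|) :=
                mul_le_mul_of_nonneg_left hd (by positivity)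
            _ = C1 * (mm al l y * (|y| * |y|)) := by
                rw [hC1]
                ring
            _ = C1 * (mm al l y * y ^ 2) := by rw [← sq |y|, sq_abs]
            _ ≤ C1 * |y| ^ (al + 2) := mul_le_mul_of_nonneg_left hyy hC10.le
        have h15 : 0 ≤ c * (mm al l d * d ^ 2) := by positivity
        linarith
      · have h16 : K1 * (mm al l y * |y|) * |d| ≤ c * (mm al l d * d ^ 2) := by
          have h17 : |y| ≤ |d| := by
            refine le_trans ?_ hd.le
            nlinarith
          have h18 : mm al l y ≤ mm al l d := mm_le hal hl h17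
          have h21 : c * (K1 / c) = K1 := by field_simp
          have h20 : K1 ≤ c * K2 := by
            have : c * K2 = c + K1 := by
              rw [hK2, mul_add, mul_one, h21]
            linarith
          have h22 : K1 * |y| ≤ c * |d| := by
            calc K1 * |y| ≤ (c * K2) * |y| := mul_le_mul_of_nonneg_right h20 hy0
              _ = c * (K2 * |y|) := by ring
              _ ≤ c * |d| := mul_le_mul_of_nonneg_left hd.le hc0.le
          have h23 : mm al l y * (K1 * |y|) ≤ mm al l d * (c * |d|) :=
            mul_le_mul h18 h22 (by positivity) hmd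
          calc K1 * (mm al l y * |y|) * |d| = (mm al l y * (K1 * |y|)) * |d| := by ring
            _ ≤ (mm al l d * (c * |d|)) * |d| := mul_le_mul_of_nonneg_right h23 (abs_nonneg d)
            _ = c * (mm al l d * (|d| * |d|)) := by ring
            _ = _ := by rw [← sq |d|, sq_abs]
        have h22 : 0 ≤ C1 * |y| ^ (al + 2) := by positivity
        linarith
    refine le_trans ?_ hgoal
    have h23 : 0 ≤ max (q - M) 0 * y ^ 2 := by positivity
    have h24 : C1 * |y| ^ (al + 2) ≤ (C1 + C2 + C3) * (|y| ^ (al + 2) +
        (if 2 < al then mm (al - 2) l v * y ^ 4 else 0) + max (q - M) 0 * y ^ 2) := by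
      calc C1 * |y| ^ (al + 2) ≤ (C1 + C2 + C3) * |y| ^ (al + 2) :=
            mul_le_mul_of_nonneg_right (by linarith) hY
        _ ≤ _ := mul_le_mul_of_nonneg_left (by linarith) (by positivity)
    linarith
  · -- case B
    have hv0 : 0 < |v| := lt_of_le_of_lt (by positivity) hv
    have h1 := taylor_gl ha hal hl hv
    rw [← hb, ← hK3, ← hq] at h1
    have h2 : |v| ≤ 2 * |v + y| := by
      have h3 := abs_sub_abs_le_abs_sub v (-y)
      rw [abs_neg, sub_neg_eq_add] at h3
      linarith
    have h4 : c' * (mm al l v * d ^ 2) ≤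
        (gl a al l (v + y + d) - gl a al l (v + y)) * d := by
      refine le_trans ?_ hm
      have h5 : mm al l v ≤ 2 ^ al * mm al l (v + y) := mm_sc hal hl (by norm_num) h2
      have h2p : (0 : ℝ) < 2 ^ al := by positivity
      have h6 : c' * mm al l v ≤ c * mm al l (v + y) := by
        rw [hc', div_mul_eq_mul_div, div_le_iff₀ h2p]
        calc c * mm al l v ≤ c * (2 ^ al * mm al l (v + y)) :=
              mul_le_mul_of_nonneg_left h5 hc0.le
          _ = _ := by ring
      have h7 : 0 ≤ c * mm al l d := by positivity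
      rw [← mul_assoc]
      apply mul_le_mul_of_nonneg_right _ (sq_nonneg _)
      linarith
    set B : ℝ := mm al l v * (y ^ 4 / |v| ^ 2) with hB
    have hB0 : 0 ≤ B := by positivity
    have h5 : K3 * (mm al l v * (y ^ 2 / |v|)) * |d| ≤
        c' / 2 * (mm al l v * d ^ 2) + C2 * B := by
      have h6 : K3 * (mm al l v * (y ^ 2 / |v|)) * |d| =
          mm al l v * (K3 * (y ^ 2 / |v|) * |d|) := by ring
      have h7 : c' / 2 * (mm al l v * d ^ 2) + C2 * B =
          mm al l v * (c' / 2 * |d| ^ 2 + K3 ^ 2 / (2 * c') * (y ^ 2 / |v|) ^ 2) := by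
        have h71 : (y ^ 2 / |v|) ^ 2 = y ^ 4 / |v| ^ 2 := by
          rw [div_pow, ← pow_mul]
        have h72 : |d| ^ 2 = d ^ 2 := sq_abs d
        rw [hB, hC2, h71, h72]
        ring
      rw [h6, h7]
      apply mul_le_mul_of_nonneg_left _ hmv
      have h11 : 0 ≤ (c' * |d| - K3 * (y ^ 2 / |v|)) ^ 2 / (2 * c') := by positivity
      have h12 : (c' * |d| - K3 * (y ^ 2 / |v|)) ^ 2 / (2 * c') =
          c' / 2 * |d| ^ 2 + K3 ^ 2 / (2 * c') * (y ^ 2 / |v|) ^ 2 -
            K3 * (y ^ 2 / |v|) * |d| := by
        field_simp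
        ring
      linarith
    set e : ℝ := max (q - M) 0 with he
    have heq2 : e ≤ b * mm al l v := by
      rw [← hqm, ← heq]
      linarith
    have h13 : e * |y| * |d| ≤ c' / 2 * (mm al l v * d ^ 2) + C3 * (e * y ^ 2) := by
      have h14 : e * |y| * |d| ≤ c' / (2 * b) * (e * d ^ 2) + C3 * (e * y ^ 2) := by
        rw [hC3]
        have h15 : 0 ≤ e * ((c' * |d| - b * |y|) ^ 2 / (2 * b * c')) := by positivity
        have h16 : e * ((c' * |d| - b * |y|) ^ 2 / (2 * b * c')) =
            c' / (2 * b) * (e * |d| ^ 2) + b / (2 * c') * (e * |y| ^ 2) -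
              e * |y| * |d| := by
          field_simp
          ring
        rw [sq_abs, sq_abs] at h16
        linarith
      have h17 : c' / (2 * b) * (e * d ^ 2) ≤ c' / 2 * (mm al l v * d ^ 2) := by
        have h18 : c' / (2 * b) * (e * d ^ 2) ≤
            c' / (2 * b) * ((b * mm al l v) * d ^ 2) := by
          apply mul_le_mul_of_nonneg_left _ (by positivity)
          exact mul_le_mul_of_nonneg_right heq2 (sq_nonneg _)
        refine le_trans h18 (le_of_eq ?_)
        field_simp
      linarith
    have hR : gl a al l (v + y) - gl a al l v - min q M * y =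
        (gl a al l (v + y) - gl a al l v - q * y) + e * y := by
      rw [← heq]
      ring
    have h19 : -(K3 * (mm al l v * (y ^ 2 / |v|)) * |d| + e * |y| * |d|) ≤
        (gl a al l (v + y) - gl a al l v - min q M * y) * d := by
      rw [hR]
      have h20 := neg_abs_le (((gl a al l (v + y) - gl a al l v - q * y) + e * y) * d)
      rw [abs_mul] at h20
      have h21 : |(gl a al l (v + y) - gl a al l v - q * y) + e * y| ≤
          K3 * (mm al l v * (y ^ 2 / |v|)) + e * |y| := by
        refine le_trans (abs_add_le _ _) ?_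
        rw [abs_mul, abs_of_nonneg he0]
        linarith
      have h22 := mul_le_mul_of_nonneg_right h21 (abs_nonneg d)
      linarith
    have hgoal : -(C2 * B + C3 * (e * y ^ 2)) ≤
        (gl a al l (v + y + d) - gl a al l (v + y)) * d +
          (gl a al l (v + y) - gl a al l v - min q M * y) * d := by
      linarith
    refine le_trans ?_ hgoal
    have hBle : B ≤ |y| ^ (al + 2) + (if 2 < al then mm (al - 2) l v * y ^ 4 else 0) := by
      split_ifs with h
      · have h23 : mm al l v ≤ mm (al - 2) l v * |v| ^ 2 := by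
          have hmn : 0 < min |v| l := lt_min hv0 hl
          have h24 : mm al l v = mm (al - 2) l v * (min |v| l) ^ 2 := by
            unfold mm
            rw [← Real.rpow_two, ← Real.rpow_add hmn]
            congr 1
            ring
          rw [h24]
          apply mul_le_mul_of_nonneg_left _ (mm_nn hl v)
          exact pow_le_pow_left₀ hmn.le (min_le_left _ _) 2
        have h25 : B ≤ mm (al - 2) l v * y ^ 4 := by
          rw [hB]
          calc mm al l v * (y ^ 4 / |v| ^ 2) ≤
              (mm (al - 2) l v * |v| ^ 2) * (y ^ 4 / |v| ^ 2) :=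
                mul_le_mul_of_nonneg_right h23 (by positivity)
            _ = mm (al - 2) l v * y ^ 4 := by
                field_simp
        linarith
      · rw [add_zero, hB]
        rcases eq_or_ne y 0 with hy | hy
        · rw [hy]
          have : (0 : ℝ) ≤ |0| ^ (al + 2) := Real.rpow_nonneg (abs_nonneg _) _
          simpa using this
        · have hy0 : 0 < |y| := abs_pos.2 hy
          have h22 : mm al l v ≤ |v| ^ (al - 2) * |v| ^ 2 := by
            have h221 : |v| ^ (al - 2) * |v| ^ 2 = |v| ^ al := by
              rw [← Real.rpow_two, ← Real.rpow_add hv0]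
              congr 1
              ring
            rw [h221]
            unfold mm
            exact Real.rpow_le_rpow (le_min (abs_nonneg v) hl.le) (min_le_left _ _) hal.le
          have h23 : |v| ^ (al - 2) ≤ |y| ^ (al - 2) :=
            Real.rpow_le_rpow_of_nonpos hy0 (by linarith) (by linarith)
          have h24 : |y| ^ (al + 2) = |y| ^ (al - 2) * y ^ 4 := by
            have h25 : y ^ 4 = |y| ^ (4 : ℝ) := by
              have : y ^ 4 = |y| ^ 4 := by
                have h26 : y ^ 4 = (y ^ 2) ^ 2 := by ring
                rw [h26, ← sq_abs y]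
                ring
              rw [this]
              exact (Real.rpow_natCast |y| 4).symm
            rw [h25, ← Real.rpow_add hy0]
            congr 1
            ring
          rw [h24]
          calc mm al l v * (y ^ 4 / |v| ^ 2) ≤
              (|v| ^ (al - 2) * |v| ^ 2) * (y ^ 4 / |v| ^ 2) :=
                mul_le_mul_of_nonneg_right h22 (by positivity)
            _ = |v| ^ (al - 2) * y ^ 4 := by
                field_simp
            _ ≤ |y| ^ (al - 2) * y ^ 4 := mul_le_mul_of_nonneg_right h23 (by positivity)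
    have hey : 0 ≤ e * y ^ 2 := by positivity
    have hS : 0 ≤ |y| ^ (al + 2) + (if 2 < al then mm (al - 2) l v * y ^ 4 else 0) := by
      linarith
    have h27 : C2 * B + C3 * (e * y ^ 2) ≤ (C1 + C2 + C3) * (|y| ^ (al + 2) +
        (if 2 < al then mm (al - 2) l v * y ^ 4 else 0) + e * y ^ 2) := by
      have h28 : C2 * B ≤
          C2 * (|y| ^ (al + 2) + (if 2 < al then mm (al - 2) l v * y ^ 4 else 0)) :=
        mul_le_mul_of_nonneg_left hBle hC20.le
      have h29 : 0 ≤
          (C1 + C3) * (|y| ^ (al + 2) + (if 2 < al then mm (al - 2) l v * y ^ 4 else 0)) :=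
        mul_nonneg (by positivity) hS
      have h30 : 0 ≤ (C1 + C2) * (e * y ^ 2) := mul_nonneg (by positivity) hey
      nlinarith
    linarith

/-- Row PWI. -/
theorem pwi : PwiStmt := by
  intro a al ha hal
  obtain ⟨C, hC, h⟩ := absorb_gl ha hal
  refine ⟨C, hC, ?_⟩
  intro l M w v y d ep hl hM _ _ hep
  have h1 := h l v y d M hl hM
  set S : ℝ := C * (|y| ^ (al + 2) + (if 2 < al then mm (al - 2) l v * y ^ 4 else 0) +
      max (ql a al l v - M) 0 * y ^ 2) with hS
  set k : ℝ := min (ql a al l v) M with hk
  have h2 : -((k - w) * y * d) ≤ (1 / ep) * ((k - w) ^ 2 * y ^ 2) + ep * d ^ 2 := by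
    have h3 : 0 ≤ (ep * d + (1 / 2) * ((k - w) * y)) ^ 2 / ep := by positivity
    have h4 : (ep * d + (1 / 2) * ((k - w) * y)) ^ 2 / ep =
        ep * d ^ 2 + (k - w) * y * d + (1 / 4) * ((1 / ep) * ((k - w) ^ 2 * y ^ 2)) := by
      field_simp
      ring
    have h5 : 0 ≤ (1 / ep) * ((k - w) ^ 2 * y ^ 2) := by positivity
    linarith
  have h6 : -((gl a al l (v + y + d) - gl a al l v) * d) + w * y * d =
      -((gl a al l (v + y + d) - gl a al l v - k * y) * d) + -((k - w) * y * d) := by ring
  rw [h6]
  linarith

end Pool.Agent.BEL.H61
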