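import Pool.Agent.BEL.StmtsU

/-!
# Squad BEL (MP_be01ff_an): rows UDI (Nakao's lemma) and UBD
-/

set_option autoImplicit false

namespace Pool.Agent.BEL.H61

open Set Filter Topology

/-- small `δ` -/
theorem small_step {al K E0 E1 : ℝ} (hal : 0 < al) (hK : 0 < K) (h1 : 0 ≤ E1) (h01 : E1 ≤ E0)
    (hδ : E0 - E1 ≤ 1)
    (h : E1 ≤ K * ((E0 - E1) ^ (2 / (al + 2)) + (E0 - E1) +
      (E0 - E1) ^ ((al + 1) / (al + 2)) * Real.sqrt E0)) :
    E1 ≤ (6 * K + K ^ 2) * (E0 - E1) ^ (2 / (al + 2)) := by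
  set δ := E0 - E1 with hd
  have hδ0 : 0 ≤ δ := by linarith
  set p : ℝ := 2 / (al + 2) with hp
  set β : ℝ := (al + 1) / (al + 2) with hβ
  have hp0 : 0 < p := by positivity
  have hp1 : p ≤ 1 := by
    rw [hp, div_le_one (by linarith)]
    linarith
  have hβ0 : 0 < β := by positivity
  have hpβ : p ≤ β + 1 / 2 := by
    rw [hp, hβ, div_add_div _ _ (by linarith) (by norm_num), div_le_div_iff₀ (by linarith) (by linarith)]
    nlinarith
  have hp2β : p ≤ β + β := by
    rw [hp, hβ, ← add_div]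
    apply div_le_div_of_nonneg_right _ (by linarith)
    linarith
  have hpow : ∀ q : ℝ, p ≤ q → δ ^ q ≤ δ ^ p := by
    intro q hq
    rcases eq_or_lt_of_le hδ0 with h0 | h0
    · rw [← h0, Real.zero_rpow hp0.ne', Real.zero_rpow (by linarith)]
    · exact Real.rpow_le_rpow_of_exponent_ge h0 hδ hq
  have hE0 : E0 = E1 + δ := by rw [hd]; ring
  have hsq : Real.sqrt E0 ≤ Real.sqrt E1 + Real.sqrt δ := by
    rw [hE0]
    rw [Real.sqrt_le_left (by positivity)]
    have := mul_nonneg (Real.sqrt_nonneg E1) (Real.sqrt_nonneg δ)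
    nlinarith [Real.sq_sqrt h1, Real.sq_sqrt hδ0]
  have hx0 : 0 ≤ δ ^ β := Real.rpow_nonneg hδ0 _
  have hy0 : 0 ≤ Real.sqrt E1 := Real.sqrt_nonneg _
  have hyy : Real.sqrt E1 ^ 2 = E1 := Real.sq_sqrt h1
  have h2 : K * (δ ^ β * Real.sqrt E0) ≤
      E1 / 2 + K ^ 2 * (δ ^ β) ^ 2 / 2 + K * (δ ^ β * Real.sqrt δ) := by
    have h3 : K * (δ ^ β * Real.sqrt E0) ≤ K * (δ ^ β * (Real.sqrt E1 + Real.sqrt δ)) :=
      mul_le_mul_of_nonneg_left (mul_le_mul_of_nonneg_left hsq hx0) hK.le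
    have h4 : K * (δ ^ β * Real.sqrt E1) ≤ E1 / 2 + K ^ 2 * (δ ^ β) ^ 2 / 2 := by
      nlinarith [sq_nonneg (K * δ ^ β - Real.sqrt E1)]
    nlinarith
  have h5 : δ ^ β * Real.sqrt δ ≤ δ ^ p := by
    have h6 : δ ^ β * Real.sqrt δ = δ ^ (β + 1 / 2) := by
      rw [Real.sqrt_eq_rpow, ← Real.rpow_add_of_nonneg hδ0 hβ0.le (by norm_num)]
    rw [h6]
    exact hpow _ hpβ
  have h7 : (δ ^ β) ^ 2 ≤ δ ^ p := by
    have h8 : (δ ^ β) ^ 2 = δ ^ (β + β) := by
      rw [Real.rpow_add_of_nonneg hδ0 hβ0.le hβ0.le, sq]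
    rw [h8]
    exact hpow _ hp2β
  have h9 : δ ≤ δ ^ p := by
    calc δ = δ ^ (1 : ℝ) := (Real.rpow_one _).symm
      _ ≤ δ ^ p := hpow _ hp1
  have h10 : 0 ≤ δ ^ p := Real.rpow_nonneg hδ0 _
  have h11 : K * (δ ^ β * Real.sqrt δ) ≤ K * δ ^ p := mul_le_mul_of_nonneg_left h5 hK.le
  have h12 : K ^ 2 * (δ ^ β) ^ 2 ≤ K ^ 2 * δ ^ p := mul_le_mul_of_nonneg_left h7 (sq_nonneg _)
  have h13 : K * δ ≤ K * δ ^ p := mul_le_mul_of_nonneg_left h9 hK.le
  nlinarith

/-- the increment of `x ^ (-al/2)` -/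
theorem incr {al A x y : ℝ} (hal : 0 < al) (hA : 0 < A) (hx : 0 < x) (hxy : x ≤ y) (hy : y ≤ 1)
    (h : x ^ (1 + al / 2) ≤ A * (y - x)) :
    y ^ (-(al / 2)) + min ((2 : ℝ) ^ (al / 2) - 1) ((al / 2) * (1 / 2) ^ (1 + al / 2) / A) ≤
      x ^ (-(al / 2)) := by
  have hy0 : 0 < y := lt_of_lt_of_le hx hxy
  have hyp : 0 < y ^ (-(al / 2)) := Real.rpow_pos_of_pos hy0 _
  rcases le_or_gt x (y / 2) with hc | hc
  · have h1 : (2 : ℝ) ^ (al / 2) * y ^ (-(al / 2)) ≤ x ^ (-(al / 2)) := by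
      have h2 : (y / 2) ^ (-(al / 2)) ≤ x ^ (-(al / 2)) :=
        Real.rpow_le_rpow_of_nonpos hx hc (by linarith)
      refine le_trans (le_of_eq ?_) h2
      rw [Real.div_rpow hy0.le (by norm_num), Real.rpow_neg (by norm_num : (0:ℝ) ≤ 2)]
      field_simp
    have h3 : 1 ≤ y ^ (-(al / 2)) := Real.one_le_rpow_of_pos_of_le_one_of_nonpos hy0 hy (by linarith)
    have h4 : (1 : ℝ) ≤ 2 ^ (al / 2) := Real.one_le_rpow (by norm_num) (by linarith)
    have h5 := min_le_left ((2 : ℝ) ^ (al / 2) - 1) ((al / 2) * (1 / 2) ^ (1 + al / 2) / A)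
    nlinarith
  · set s := x / y with hs
    have hs0 : 0 < s := by positivity
    have hxs : x = y * s := by rw [hs]; field_simp
    have h1 : 1 + (al / 2) * (1 - s) ≤ s ^ (-(al / 2)) := by
      rw [Real.rpow_def_of_pos hs0]
      have h2 := Real.add_one_le_exp (Real.log s * (-(al / 2)))
      have h3 := Real.log_le_sub_one_of_pos hs0
      nlinarith
    have h4 : x ^ (-(al / 2)) = y ^ (-(al / 2)) * s ^ (-(al / 2)) := by
      rw [hxs, Real.mul_rpow hy0.le hs0.le]
    have h5 : y ^ (-(al / 2)) * (1 + (al / 2) * (1 - s)) ≤ x ^ (-(al / 2)) := by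
      rw [h4]
      exact mul_le_mul_of_nonneg_left h1 hyp.le
    have h6 : y ^ (-(al / 2)) * (1 - s) = y ^ (-(1 + al / 2)) * (y - x) := by
      have h7 : y ^ (-(1 + al / 2)) = y ^ (-(al / 2)) * y⁻¹ := by
        rw [← Real.rpow_neg_one y, ← Real.rpow_add hy0]
        congr 1
        ring
      rw [h7, hs]
      field_simp
    have hyx : 0 ≤ y - x := by linarith
    have h8 : (2 * x) ^ (-(1 + al / 2)) ≤ y ^ (-(1 + al / 2)) :=
      Real.rpow_le_rpow_of_nonpos hy0 (by linarith) (by linarith)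
    have h9 : (2 * x) ^ (-(1 + al / 2)) = (1 / 2) ^ (1 + al / 2) * (x ^ (1 + al / 2))⁻¹ := by
      rw [Real.mul_rpow (by norm_num) hx.le, Real.rpow_neg (by norm_num), Real.rpow_neg hx.le,
        one_div, Real.inv_rpow (by norm_num)]
    have hxr : 0 < x ^ (1 + al / 2) := Real.rpow_pos_of_pos hx _
    have h10 : (1 / 2) ^ (1 + al / 2) / A ≤ y ^ (-(1 + al / 2)) * (y - x) := by
      calc (1 / 2 : ℝ) ^ (1 + al / 2) / A
          = ((1 / 2) ^ (1 + al / 2) * (x ^ (1 + al / 2))⁻¹) * (x ^ (1 + al / 2) / A) := by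
            field_simp
        _ ≤ ((1 / 2) ^ (1 + al / 2) * (x ^ (1 + al / 2))⁻¹) * (y - x) := by
            apply mul_le_mul_of_nonneg_left _ (by positivity)
            rw [div_le_iff₀ hA]
            linarith
        _ = (2 * x) ^ (-(1 + al / 2)) * (y - x) := by rw [h9]
        _ ≤ _ := mul_le_mul_of_nonneg_right h8 hyx
    have h11 := min_le_right ((2 : ℝ) ^ (al / 2) - 1) ((al / 2) * (1 / 2) ^ (1 + al / 2) / A)
    have h12 : (al / 2) * (1 / 2) ^ (1 + al / 2) / A =
        (al / 2) * ((1 / 2) ^ (1 + al / 2) / A) := by ring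
    rw [h12] at h11
    have h13 := mul_le_mul_of_nonneg_left h10 (by linarith : 0 ≤ al / 2)
    rw [h12]
    nlinarith

theorem udi : UdiStmt := by
  intro al K τ hal hK hτ
  set r : ℝ := 1 + al / 2 with hr
  have hr0 : 0 < r := by positivity
  set K' : ℝ := 6 * K + K ^ 2 with hK'
  have hK'0 : 0 < K' := by positivity
  set A : ℝ := K' ^ r with hA
  have hA0 : 0 < A := by positivity
  set c : ℝ := min ((2 : ℝ) ^ (al / 2) - 1) ((al / 2) * (1 / 2) ^ (1 + al / 2) / A) with hc
  have hc0 : 0 < c := by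
    apply lt_min
    · have := Real.one_lt_rpow (by norm_num : (1:ℝ) < 2) (by linarith : 0 < al / 2)
      linarith
    · positivity
  refine ⟨(c / (2 * τ)) ^ (-(2 / al)), by positivity, ?_⟩
  rintro E ⟨hE0, hanti, hwin⟩
  have hev : ∀ᶠ t : ℝ in atTop, E t ≤ (c / (2 * τ)) ^ (-(2 / al)) * t ^ (-(2 / al)) := by
    let e : ℕ → ℝ := fun n => E (n * τ)
    have he0 : ∀ n, 0 ≤ e n := fun n => hE0 _ (by positivity)
    have hes : ∀ n, e (n + 1) ≤ e n := fun n => by
      apply hanti _ _ (by positivity)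
      push_cast
      nlinarith
    have hean : Antitone e := antitone_nat_of_succ_le hes
    have hlim : ∃ l, Tendsto e atTop (𝓝 l) :=
      ⟨_, tendsto_atTop_ciInf hean ⟨0, by rintro _ ⟨n, rfl⟩; exact he0 n⟩⟩
    obtain ⟨l, hl⟩ := hlim
    have hδ : Tendsto (fun n => e n - e (n + 1)) atTop (𝓝 0) := by
      have := hl.sub ((tendsto_add_atTop_iff_nat 1).2 hl)
      rwa [sub_self] at this
    have hstep : ∀ n, e n - e (n + 1) ≤ 1 →
        e (n + 1) ≤ K' * (e n - e (n + 1)) ^ (2 / (al + 2)) := by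
      intro n hn
      have h1 := hwin (n * τ) (by positivity)
      have h2 : (n : ℝ) * τ + τ = ((n + 1 : ℕ) : ℝ) * τ := by push_cast; ring
      rw [h2] at h1
      exact small_step hal hK (he0 (n + 1)) (hes n) hn h1
    have hel : Tendsto e atTop (𝓝 0) := by
      rw [← tendsto_add_atTop_iff_nat 1]
      have h1 : Tendsto (fun n => K' * (e n - e (n + 1)) ^ (2 / (al + 2))) atTop (𝓝 0) := by
        have h2 := (hδ.rpow_const (p := 2 / (al + 2)) (Or.inr (by positivity))).const_mul K'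
        rw [Real.zero_rpow (by positivity), mul_zero] at h2
        exact h2
      refine squeeze_zero' (Eventually.of_forall fun n => he0 (n + 1)) ?_ h1
      filter_upwards [hδ.eventually (Iic_mem_nhds (show (0:ℝ) < 1 by norm_num))] with n hn
      exact hstep n hn
    obtain ⟨n0, hn0⟩ := (hel.eventually (Iic_mem_nhds (show (0:ℝ) < 1 by norm_num))).exists_forall_of_atTop
    have hinc : ∀ m : ℕ, 0 < e (n0 + m) → c * m ≤ e (n0 + m) ^ (-(al / 2)) := by
      intro m
      induction m with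
      | zero =>
        intro _
        have := Real.rpow_nonneg (he0 (n0 + 0)) (-(al / 2))
        simpa using this
      | succ m ih =>
        intro hpos
        rw [← Nat.add_assoc] at hpos ⊢
        set n := n0 + m with hn
        have h1 : 0 < e n := lt_of_lt_of_le hpos (hes n)
        have h2 := ih h1
        have h3 : e n ≤ 1 := hn0 n (by omega)
        have h4 : e n - e (n + 1) ≤ 1 := by
          have := he0 (n + 1)
          linarith
        have h5 := hstep n h4
        have hd0 : 0 ≤ e n - e (n + 1) := by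
          have := hes n
          linarith
        have h6 : e (n + 1) ^ r ≤ A * (e n - e (n + 1)) := by
          have h7 : e (n + 1) ^ r ≤ (K' * (e n - e (n + 1)) ^ (2 / (al + 2))) ^ r :=
            Real.rpow_le_rpow (he0 _) h5 hr0.le
          rw [Real.mul_rpow hK'0.le (Real.rpow_nonneg hd0 _), ← Real.rpow_mul hd0] at h7
          have h8 : 2 / (al + 2) * r = 1 := by
            rw [hr]
            field_simp
            ring
          rw [h8, Real.rpow_one] at h7
          exact h7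
        have h9 := incr hal hA0 hpos (hes n) h3 h6
        rw [← hc] at h9
        push_cast
        linarith
    have hbd : ∀ m : ℕ, 1 ≤ m → e (n0 + m) ≤ (c * m) ^ (-(2 / al)) := by
      intro m hm
      have hm0 : (0:ℝ) < m := by exact_mod_cast hm
      have hcm : 0 < c * m := by positivity
      rcases eq_or_lt_of_le (he0 (n0 + m)) with h0 | h0
      · rw [← h0]
        exact Real.rpow_nonneg hcm.le _
      · have h1 := hinc m h0
        have h2 : (e (n0 + m) ^ (-(al / 2))) ^ (-(2 / al)) ≤ (c * m) ^ (-(2 / al)) :=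
          Real.rpow_le_rpow_of_nonpos hcm h1 (by
            have : 0 < 2 / al := by positivity
            linarith)
        rw [← Real.rpow_mul h0.le] at h2
        have h3 : -(al / 2) * -(2 / al) = 1 := by field_simp
        rwa [h3, Real.rpow_one] at h2
    filter_upwards [eventually_ge_atTop (2 * τ * (2 + n0))] with t ht
    have ht0 : 0 < t := lt_of_lt_of_le (by positivity) ht
    set n := ⌊t / τ⌋₊ with hn
    have h1 : (n : ℝ) ≤ t / τ := Nat.floor_le (by positivity)
    have h2 : t / τ < n + 1 := Nat.lt_floor_add_one _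
    have h3 : 2 * (2 + (n0 : ℝ)) ≤ t / τ := by
      rw [le_div_iff₀ hτ]
      linarith
    have h4 : n0 + 1 ≤ n := by
      have : ((n0 + 1 : ℕ) : ℝ) < n + 1 := by
        push_cast
        have : (0:ℝ) ≤ n0 := Nat.cast_nonneg _
        linarith
      have h5 : n0 + 1 < n + 1 := by exact_mod_cast this
      omega
    obtain ⟨m, hm⟩ := Nat.exists_eq_add_of_le (show n0 ≤ n by omega)
    have hm1 : 1 ≤ m := by omega
    have h6 : t / (2 * τ) ≤ m := by
      have h7 : (n : ℝ) = n0 + m := by rw [hm]; push_cast; ring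
      have h8 : t / (2 * τ) = (t / τ) / 2 := by field_simp
      rw [h8]
      linarith
    have h9 : E t ≤ e n := by
      apply hanti _ _ (by positivity)
      rw [le_div_iff₀ hτ] at h1
      exact h1
    have h10 := hbd m hm1
    rw [← hm] at h10
    have h11 : (c * m) ^ (-(2 / al)) ≤ (c * (t / (2 * τ))) ^ (-(2 / al)) :=
      Real.rpow_le_rpow_of_nonpos (by positivity) (mul_le_mul_of_nonneg_left h6 hc0.le) (by
        have : 0 < 2 / al := by positivity
        linarith)
    have h12 : c * (t / (2 * τ)) = c / (2 * τ) * t := by field_simp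
    rw [h12, Real.mul_rpow (by positivity) ht0.le] at h11
    linarith
  refine ⟨?_, hev⟩
  obtain ⟨T, hT⟩ := hev.exists_forall_of_atTop
  set C : ℝ := (c / (2 * τ)) ^ (-(2 / al)) with hC
  have hC0 : 0 < C := by positivity
  set T' : ℝ := max T 1 with hT'
  have hT'1 : 1 ≤ T' := le_max_right _ _
  have hneg : -(2 / al) ≤ 0 := by
    have : 0 < 2 / al := by positivity
    linarith
  refine ⟨C * 2 ^ (2 / al) + E 0 * (1 + T') ^ (2 / al), ?_⟩
  intro t ht
  have hE00 := hE0 0 le_rfl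
  have h1t : 0 < (1 + t) ^ (-(2 / al)) := Real.rpow_pos_of_pos (by linarith) _
  rcases le_total T' t with h | h
  · have h1 : 1 ≤ t := le_trans hT'1 h
    have h2 := hT t (le_trans (le_max_left _ _) h)
    have h3 : t ^ (-(2 / al)) ≤ ((1 + t) / 2) ^ (-(2 / al)) :=
      Real.rpow_le_rpow_of_nonpos (by linarith) (by linarith) hneg
    have h4 : ((1 + t) / 2) ^ (-(2 / al)) = 2 ^ (2 / al) * (1 + t) ^ (-(2 / al)) := by
      rw [Real.div_rpow (by linarith) (by norm_num), Real.rpow_neg (by norm_num : (0:ℝ) ≤ 2)]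
      field_simp
    rw [h4] at h3
    have h5 := mul_le_mul_of_nonneg_left h3 hC0.le
    have h6 : 0 ≤ E 0 * (1 + T') ^ (2 / al) * (1 + t) ^ (-(2 / al)) := by positivity
    nlinarith
  · have h1 : E t ≤ E 0 := hanti 0 t le_rfl ht
    have h2 : (1 + T') ^ (-(2 / al)) ≤ (1 + t) ^ (-(2 / al)) :=
      Real.rpow_le_rpow_of_nonpos (by linarith) (by linarith) hneg
    have h3 : (1 + T') ^ (2 / al) * (1 + T') ^ (-(2 / al)) = 1 := by
      rw [← Real.rpow_add (by linarith), add_neg_cancel, Real.rpow_zero]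
    have h4 : 0 < (1 + T') ^ (2 / al) := by positivity
    have h5 : E 0 ≤ E 0 * (1 + T') ^ (2 / al) * (1 + t) ^ (-(2 / al)) := by
      calc E 0 = E 0 * ((1 + T') ^ (2 / al) * (1 + T') ^ (-(2 / al))) := by rw [h3, mul_one]
        _ ≤ E 0 * ((1 + T') ^ (2 / al) * (1 + t) ^ (-(2 / al))) := by
            apply mul_le_mul_of_nonneg_left _ hE00
            exact mul_le_mul_of_nonneg_left h2 h4.le
        _ = _ := by ring
    have h6 : 0 ≤ C * 2 ^ (2 / al) * (1 + t) ^ (-(2 / al)) := by positivity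
    nlinarith

theorem ubd (h1 : UwiStmt) (h2 : UdiStmt) : UbdStmt := by
  intro X _ μ a al b om ha hal hI
  obtain ⟨K, τ, hK, hτ, hw⟩ := h1 X μ a al b om ha hal hI
  obtain ⟨C, hC, hu⟩ := h2 al K τ hal hK hτ
  exact ⟨C, hC, fun z1 z2 hz => hu _ (hw z1 z2 hz)⟩

end Pool.Agent.BEL.H61
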